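import Pool.Agent.H531.SI.Occ

set_option autoImplicit false

/-!
# Anticoncentration of the number of survivors
-/

open Finset MeasureTheory ProbabilityTheory Filter Topology

namespace Pool.Agent.H531.SI

open Pool.Agent.T2H31.HV

theorem Ev_const' (L : Finset ℕ) (hL : ∀ p ∈ L, p.Prime) (c : ℝ) : Ev L (fun _ => c) = c :=
  Ev_const L (fun p hp => (hL p hp).pos) c

theorem prod_one_sub_ge (L : Finset ℕ) (d : ℕ → ℝ) (h0 : ∀ p ∈ L, 0 ≤ d p) (h1 : ∀ p ∈ L, d p ≤ 1) :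
    1 - ∑ p ∈ L, d p ≤ ∏ p ∈ L, (1 - d p) := by
  classical
  induction L using Finset.induction_on with
  | empty => simp
  | insert p L hp ih =>
    rw [sum_insert hp, prod_insert hp]
    have h2 := ih (fun q hq => h0 q (mem_insert_of_mem hq)) fun q hq => h1 q (mem_insert_of_mem hq)
    have h3 : ∏ q ∈ L, (1 - d q) ≤ 1 := prod_le_one
      (fun q hq => by linarith [h1 q (mem_insert_of_mem hq)])
      fun q hq => by linarith [h0 q (mem_insert_of_mem hq)]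
    have h4 := h0 p (mem_insert_self _ _)
    have h5 := h1 p (mem_insert_self _ _)
    nlinarith

theorem prod_le_exp (L : Finset ℕ) (d : ℕ → ℝ) (h1 : ∀ p ∈ L, d p ≤ 1) :
    ∏ p ∈ L, (1 - d p) ≤ Real.exp (-∑ p ∈ L, d p) := by
  rw [← sum_neg_distrib, Real.exp_sum]
  refine prod_le_prod (fun p hp => by linarith [h1 p hp]) fun p _ => ?_
  have := Real.add_one_le_exp (-d p)
  linarith

theorem rho_bounds (L : Finset ℕ) (hL : ∀ p ∈ L, p.Prime) (hH : ∑ p ∈ L, 1 / (p : ℝ) ≤ 1 / 2) :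
    1 / 2 ≤ ∏ p ∈ L, (1 - 1 / (p : ℝ)) ∧ ∏ p ∈ L, (1 - 1 / (p : ℝ)) ≤ 1 - (∑ p ∈ L, 1 / (p : ℝ)) / 2 := by
  have h1 : ∀ p ∈ L, 1 / (p : ℝ) ≤ 1 := by
    intro p hp
    have : (2 : ℝ) ≤ p := by exact_mod_cast (hL p hp).two_le
    rw [div_le_one (by linarith)]
    linarith
  have h0 : ∀ p ∈ L, 0 ≤ 1 / (p : ℝ) := fun p _ => by positivity
  set H := ∑ p ∈ L, 1 / (p : ℝ) with hHd
  have hH0 : 0 ≤ H := sum_nonneg h0
  constructor
  · have := prod_one_sub_ge L (fun p => 1 / (p : ℝ)) h0 h1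
    linarith
  · have h2 := prod_le_exp L (fun p => 1 / (p : ℝ)) h1
    have h3 := exp_quad (-H) (by
      rw [abs_neg, abs_of_nonneg hH0]
      linarith)
    have h4 : Real.exp (-∑ p ∈ L, 1 / (p : ℝ)) = Real.exp (-H) := rfl
    nlinarith

/-- the variance -/
theorem var_lower (T L : Finset ℕ) (hL : ∀ p ∈ L, p.Prime) (hsep : Sep T L)
    (hH : ∑ p ∈ L, 1 / (p : ℝ) ≤ 1 / 2)
    (hD : T.card * ∑ p ∈ L, 1 / ((p : ℝ) - 1) ^ 2 ≤ (∑ p ∈ L, 1 / (p : ℝ)) / 4) :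
    T.card * (∑ p ∈ L, 1 / (p : ℝ)) / 8 ≤
      Ev L fun b => ((Sw T L b).card - T.card * ∏ p ∈ L, (1 - 1 / (p : ℝ))) ^ 2 := by
  obtain ⟨hr1, hr2⟩ := rho_bounds L hL hH
  set ρ := ∏ p ∈ L, (1 - 1 / (p : ℝ)) with hρ
  set H := ∑ p ∈ L, 1 / (p : ℝ) with hHd
  set D := ∑ p ∈ L, 1 / ((p : ℝ) - 1) ^ 2 with hDd
  set ρ2 := ∏ p ∈ L, (1 - 2 / (p : ℝ)) with hρ2
  have hH0 : 0 ≤ H := sum_nonneg fun p _ => by positivity
  have hp2 : ∀ p ∈ L, (2 : ℝ) ≤ p := fun p hp => by exact_mod_cast (hL p hp).two_le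
  have h1 := mom1 T L hL hsep
  have h2 := mom2 T L hL hsep
  set X : ℝ := (T.card : ℝ) with hX
  have hX0 : 0 ≤ X := by positivity
  have hD0 : 0 ≤ D := sum_nonneg fun p _ => by positivity
  have e : (fun b => ((Sw T L b).card - X * ρ) ^ 2) = fun b =>
      (((Sw T L b).card : ℝ) * (((Sw T L b).card : ℝ) - 1)) + ((1 - 2 * (X * ρ)) * ((Sw T L b).card : ℝ) +
        (X * ρ) ^ 2) := by
    funext b
    ring
  rw [e, Ev_add, Ev_add, Ev_mul, h1, h2, Ev_const' L hL]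
  have hρ2' : ρ2 = ρ ^ 2 * ∏ p ∈ L, (1 - 1 / ((p : ℝ) - 1) ^ 2) := by
    rw [hρ2, hρ, ← prod_pow, ← prod_mul_distrib]
    refine prod_congr rfl fun p hp => ?_
    have h3 := hp2 p hp
    have h4 : (p : ℝ) - 1 ≠ 0 := by linarith
    have h5 : (p : ℝ) ≠ 0 := by linarith
    field_simp
    ring
  have hd : ∀ p ∈ L, 0 ≤ 1 / ((p : ℝ) - 1) ^ 2 ∧ 1 / ((p : ℝ) - 1) ^ 2 ≤ 1 := by
    intro p hp
    have h3 := hp2 p hp
    refine ⟨by positivity, ?_⟩
    rw [div_le_one (by nlinarith)]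
    nlinarith
  have h3 := prod_one_sub_ge L (fun p => 1 / ((p : ℝ) - 1) ^ 2) (fun p hp => (hd p hp).1)
    fun p hp => (hd p hp).2
  have h4 : ∏ p ∈ L, (1 - 1 / ((p : ℝ) - 1) ^ 2) ≤ 1 := prod_le_one
    (fun p hp => by linarith [(hd p hp).2]) fun p hp => by linarith [(hd p hp).1]
  have h5 : ρ ^ 2 * (1 - D) ≤ ρ2 := by
    rw [hρ2']
    apply mul_le_mul_of_nonneg_left h3 (by positivity)
  have h6 : ρ2 ≤ ρ ^ 2 := by
    rw [hρ2']
    exact mul_le_of_le_one_right (by positivity) h4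
  have h7 : X * (X - 1) * ρ2 + ((1 - 2 * (X * ρ)) * (X * ρ) + (X * ρ) ^ 2) =
      X ^ 2 * (ρ2 - ρ ^ 2) + X * (ρ - ρ2) := by ring
  rw [h7]
  have h8 : X ^ 2 * (ρ2 - ρ ^ 2) ≥ -(X * ρ ^ 2 * (H / 4)) := by
    have h9 : ρ2 - ρ ^ 2 ≥ -(ρ ^ 2 * D) := by linarith
    have h10 : X ^ 2 * (ρ2 - ρ ^ 2) ≥ X ^ 2 * -(ρ ^ 2 * D) := mul_le_mul_of_nonneg_left h9 (by positivity)
    have h11 : X * ρ ^ 2 * (X * D) ≤ X * ρ ^ 2 * (H / 4) := by gcongr
    nlinarith
  have h9 : X * (ρ - ρ2) ≥ X * (ρ - ρ ^ 2) := mul_le_mul_of_nonneg_left (by linarith) hX0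
  have h10 : ρ ^ 2 ≤ ρ := by nlinarith
  have h11 : X * ρ ^ 2 * (H / 4) ≤ X * ρ * (H / 4) := by gcongr
  have h12 : X * (ρ - ρ ^ 2) = X * ρ * (1 - ρ) := by ring
  have h13 : X * ρ * (H / 2) ≤ X * ρ * (1 - ρ) := by
    apply mul_le_mul_of_nonneg_left _ (by positivity)
    linarith
  have h14 : X * H * (1 / 2) ≤ X * H * ρ := by
    apply mul_le_mul_of_nonneg_left hr1 (by positivity)
  nlinarith

theorem fourth (x : ℝ) : x ^ 4 ≤ 12 * (Real.exp x + Real.exp (-x)) := by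
  have h : ∀ y : ℝ, 0 ≤ y → y ^ 4 ≤ 24 * Real.exp y := by
    intro y hy
    have h1 := Real.sum_le_exp_of_nonneg hy 5
    simp only [sum_range_succ, range_zero, sum_empty, Nat.factorial] at h1
    norm_num at h1
    have h2 : 0 ≤ y ^ 2 := by positivity
    have h3 : 0 ≤ y ^ 3 := by positivity
    nlinarith
  -- the even part
  have h1 : ∀ y : ℝ, 0 ≤ y → y ^ 4 ≤ 12 * (Real.exp y + Real.exp (-y)) := by
    intro y hy
    have h3 := Real.cosh_eq y
    have hc : 1 + y ^ 2 / 2 + y ^ 4 / 24 ≤ Real.cosh y := by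
      rw [Real.cosh_eq]
      -- the Taylor series of `cosh`
      have hs := Real.hasSum_cosh y
      have h5 := hs.summable.sum_le_tsum (range 3) (fun n _ => by
        rw [pow_mul]
        positivity)
      rw [hs.tsum_eq] at h5
      simp only [sum_range_succ, range_zero, sum_empty, Nat.factorial] at h5
      norm_num at h5
      rw [Real.cosh_eq] at h5
      linarith
    nlinarith [sq_nonneg y]
  rcases le_total 0 x with hx | hx
  · exact h1 x hx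
  · have := h1 (-x) (by linarith)
    rw [neg_neg] at this
    have e : (-x) ^ 4 = x ^ 4 := by ring
    rw [e] at this
    linarith

/-- the fourth central moment -/
theorem fourth_upper (T L : Finset ℕ) (hL : ∀ p ∈ L, p.Prime) (hsep : Sep T L)
    (h1 : 1 ≤ T.card * ∑ p ∈ L, 1 / (p : ℝ)) :
    Ev L (fun b => ((Sw T L b).card - T.card * ∏ p ∈ L, (1 - 1 / (p : ℝ))) ^ 4) ≤
      66 * (T.card * ∑ p ∈ L, 1 / (p : ℝ)) ^ 2 := by
  set ρ := ∏ p ∈ L, (1 - 1 / (p : ℝ)) with hρ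
  set H := ∑ p ∈ L, 1 / (p : ℝ) with hHd
  set X : ℝ := (T.card : ℝ) with hX
  set l := (√(X * H))⁻¹ with hl
  have hs1 : 1 ≤ √(X * H) := Real.one_le_sqrt.2 h1
  have hs0 : 0 < √(X * H) := by linarith
  have hsq : √(X * H) ^ 2 = X * H := Real.sq_sqrt (by linarith)
  have hl0 : 0 < l := inv_pos.2 hs0
  have hl1 : l ≤ 1 := inv_le_one_of_one_le₀ hs1
  have hl2 : l ^ 2 * (X * H) = 1 := by
    rw [hl, inv_pow, hsq]
    exact inv_mul_cancel₀ (by linarith)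
  have e1 := expmom T L hL hsep l (by
    rw [abs_of_pos hl0]
    exact hl1)
  have e2 := expmom T L hL hsep (-l) (by
    rw [abs_neg, abs_of_pos hl0]
    exact hl1)
  have h2 : ∀ b ∈ Pt L, ((Sw T L b).card - X * ρ) ^ 4 ≤ 12 * (X * H) ^ 2 *
      (Real.exp (-(l * (X * ρ))) * Real.exp (l * (Sw T L b).card) +
        Real.exp (l * (X * ρ)) * Real.exp (-l * (Sw T L b).card)) := by
    intro b _
    have h3 := fourth (l * ((Sw T L b).card - X * ρ))
    rw [← Real.exp_add, ← Real.exp_add]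
    have e3 : -(l * (X * ρ)) + l * ((Sw T L b).card : ℝ) = l * ((Sw T L b).card - X * ρ) := by ring
    have e4 : l * (X * ρ) + -l * ((Sw T L b).card : ℝ) = -(l * ((Sw T L b).card - X * ρ)) := by ring
    rw [e3, e4]
    have e5 : (l * ((Sw T L b).card - X * ρ)) ^ 4 = (l ^ 2) ^ 2 * ((Sw T L b).card - X * ρ) ^ 4 := by ring
    rw [e5] at h3
    have h4 : (X * H) ^ 2 * ((l ^ 2) ^ 2 * ((Sw T L b).card - X * ρ) ^ 4) = ((Sw T L b).card - X * ρ) ^ 4 := by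
      have : (X * H) ^ 2 * ((l ^ 2) ^ 2 * ((Sw T L b).card - X * ρ) ^ 4) =
        (l ^ 2 * (X * H)) ^ 2 * ((Sw T L b).card - X * ρ) ^ 4 := by ring
      rw [this, hl2]
      ring
    rw [← h4]
    calc (X * H) ^ 2 * ((l ^ 2) ^ 2 * ((Sw T L b).card - X * ρ) ^ 4)
        ≤ (X * H) ^ 2 * (12 * (Real.exp (l * ((Sw T L b).card - X * ρ)) +
          Real.exp (-(l * ((Sw T L b).card - X * ρ))))) := by gcongr
      _ = _ := by ring
  refine (Ev_mono L _ _ h2).trans ?_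
  rw [Ev_mul, Ev_add, Ev_mul, Ev_mul]
  have h5 : Real.exp (-(l * (X * ρ))) * Ev L (fun b => Real.exp (l * (Sw T L b).card)) ≤ Real.exp 1 := by
    calc Real.exp (-(l * (X * ρ))) * Ev L (fun b => Real.exp (l * (Sw T L b).card))
        ≤ Real.exp (-(l * (X * ρ))) * Real.exp (X * (l * ρ + l ^ 2 * H)) := by gcongr
      _ = Real.exp 1 := by
        rw [← Real.exp_add]
        congr 1
        calc -(l * (X * ρ)) + X * (l * ρ + l ^ 2 * H) = l ^ 2 * (X * H) := by ring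
          _ = 1 := hl2
  have h6 : Real.exp (l * (X * ρ)) * Ev L (fun b => Real.exp (-l * (Sw T L b).card)) ≤ Real.exp 1 := by
    calc Real.exp (l * (X * ρ)) * Ev L (fun b => Real.exp (-l * (Sw T L b).card))
        ≤ Real.exp (l * (X * ρ)) * Real.exp (X * (-l * ρ + (-l) ^ 2 * H)) := by gcongr
      _ = Real.exp 1 := by
        rw [← Real.exp_add]
        congr 1
        calc l * (X * ρ) + X * (-l * ρ + (-l) ^ 2 * H) = l ^ 2 * (X * H) := by ring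
          _ = 1 := hl2
  have h7 := Real.exp_one_lt_d9
  have h8 : (0 : ℝ) ≤ 12 * (X * H) ^ 2 := by positivity
  calc 12 * (X * H) ^ 2 * (Real.exp (-(l * (X * ρ))) * Ev L (fun b => Real.exp (l * (Sw T L b).card)) +
        Real.exp (l * (X * ρ)) * Ev L (fun b => Real.exp (-l * (Sw T L b).card)))
      ≤ 12 * (X * H) ^ 2 * (Real.exp 1 + Real.exp 1) := by gcongr
    _ ≤ 66 * (X * H) ^ 2 := by nlinarith [sq_nonneg (X * H)]

open Classical in
/-- **Anticoncentration.** -/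
theorem anti (T L : Finset ℕ) (hL : ∀ p ∈ L, p.Prime) (hsep : Sep T L)
    (hH : ∑ p ∈ L, 1 / (p : ℝ) ≤ 1 / 2)
    (hD : T.card * ∑ p ∈ L, 1 / ((p : ℝ) - 1) ^ 2 ≤ (∑ p ∈ L, 1 / (p : ℝ)) / 4)
    (h1 : 1 ≤ T.card * ∑ p ∈ L, 1 / (p : ℝ)) (m : ℝ) :
    1 / 140000 ≤ Ev L fun b => if T.card * (∑ p ∈ L, 1 / (p : ℝ)) / 16 ≤ ((Sw T L b).card - m) ^ 2 then 1 else 0 := by
  have hv := var_lower T L hL hsep hH hD
  have hf := fourth_upper T L hL hsep h1
  have hm1 := mom1 T L hL hsep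
  set ρ := ∏ p ∈ L, (1 - 1 / (p : ℝ)) with hρ
  set H := ∑ p ∈ L, 1 / (p : ℝ) with hHd
  set X : ℝ := (T.card : ℝ) with hX
  set A := Ev L (fun b => ((Sw T L b).card - X * ρ) ^ 2) with hA
  set B := Ev L (fun b => ((Sw T L b).card - X * ρ) ^ 4) with hB
  set d := X * ρ - m with hd
  set W : (ℕ → ℕ) → ℝ := fun b => ((Sw T L b).card - m) ^ 2 with hW
  have hEW : Ev L W = A + d ^ 2 := by
    have e : W = fun b => ((Sw T L b).card - X * ρ) ^ 2 + (2 * d * ((Sw T L b).card : ℝ) + (d ^ 2 - 2 * d * (X * ρ))) := by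
      funext b
      simp only [hW, hd]
      ring
    rw [e, Ev_add, Ev_add, Ev_mul, Ev_const' L hL, hm1]
    ring
  have hEW2 : Ev L (fun b => W b ^ 2) ≤ 8 * B + 8 * d ^ 4 := by
    have : ∀ b ∈ Pt L, W b ^ 2 ≤ 8 * ((Sw T L b).card - X * ρ) ^ 4 + 8 * d ^ 4 := by
      intro b _
      simp only [hW]
      have e : ((Sw T L b).card : ℝ) - m = ((Sw T L b).card - X * ρ) + d := by
        rw [hd]
        ring
      rw [e]
      set u : ℝ := (Sw T L b).card - X * ρ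
      have h3 : (u + d) ^ 2 ≤ 2 * (u ^ 2 + d ^ 2) := by nlinarith [sq_nonneg (u - d)]
      have h4 : ((u + d) ^ 2) ^ 2 ≤ (2 * (u ^ 2 + d ^ 2)) ^ 2 := pow_le_pow_left₀ (sq_nonneg _) h3 2
      have h5 : (2 * (u ^ 2 + d ^ 2)) ^ 2 ≤ 8 * u ^ 4 + 8 * d ^ 4 := by nlinarith [sq_nonneg (u ^ 2 - d ^ 2)]
      linarith
    refine (Ev_mono L _ _ this).trans ?_
    rw [Ev_add, Ev_mul, Ev_const' L hL]
  have hA0 : 0 < A := by linarith
  set I : (ℕ → ℕ) → ℝ := fun b => if (A + d ^ 2) / 2 ≤ W b then 1 else 0 with hI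
  have hW0 : ∀ b, 0 ≤ W b := fun b => sq_nonneg _
  -- split
  have hsplit : ∀ b ∈ Pt L, W b ≤ (A + d ^ 2) / 2 + W b * I b := by
    intro b _
    simp only [hI]
    split_ifs with h
    · have : 0 ≤ A + d ^ 2 := by positivity
      linarith
    · push Not at h
      linarith
  have h2 := Ev_mono L _ _ hsplit
  rw [Ev_add, Ev_const' L hL, hEW] at h2
  have hcs := Ev_cs L W I
  have hI2 : (fun b => I b ^ 2) = I := by
    funext b
    simp only [hI]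
    split_ifs <;> norm_num
  rw [hI2] at hcs
  have hI0 : 0 ≤ Ev L I := Ev_nonneg L _ fun b _ => by
    simp only [hI]
    split_ifs <;> norm_num
  have hXH : 0 ≤ X * H := by linarith
  have h3 : (A + d ^ 2) ^ 2 / 4 ≤ (8 * B + 8 * d ^ 4) * Ev L I := by
    have h4 : (A + d ^ 2) / 2 ≤ Ev L (fun b => W b * I b) := by linarith
    have h5 : ((A + d ^ 2) / 2) ^ 2 ≤ Ev L (fun b => W b * I b) ^ 2 := pow_le_pow_left₀ (by positivity) h4 2
    have h6 : Ev L (fun b => W b ^ 2) * Ev L I ≤ (8 * B + 8 * d ^ 4) * Ev L I := by gcongr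
    nlinarith
  have h4 : 8 * B + 8 * d ^ 4 ≤ 33792 * (A + d ^ 2) ^ 2 := by
    have h5 : (X * H) ^ 2 ≤ 64 * A ^ 2 := by
      have h6 : X * H ≤ 8 * A := by linarith
      have : (X * H) ^ 2 ≤ (8 * A) ^ 2 := pow_le_pow_left₀ hXH h6 2
      linarith
    have h6 : 0 ≤ A * d ^ 2 := by positivity
    have h7 : 0 ≤ d ^ 4 := by positivity
    nlinarith
  have h5 : 0 < (A + d ^ 2) ^ 2 := by positivity
  have h6 : 1 / 140000 ≤ Ev L I := by
    by_contra hcon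
    push Not at hcon
    have h7 : (8 * B + 8 * d ^ 4) * Ev L I ≤ 33792 * (A + d ^ 2) ^ 2 * (1 / 140000) := by
      apply mul_le_mul h4 hcon.le hI0 (by positivity)
    nlinarith
  refine h6.trans (Ev_mono L _ _ fun b _ => ?_)
  simp only [hI]
  by_cases h : (A + d ^ 2) / 2 ≤ W b
  · rw [if_pos h, if_pos]
    have : 0 ≤ d ^ 2 := sq_nonneg d
    have h7 : X * H / 16 ≤ (A + d ^ 2) / 2 := by linarith
    exact h7.trans h
  · rw [if_neg h]
    split_ifs <;> norm_num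

end Pool.Agent.H531.SI
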