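import Pool.Graph.R_pool_sql_team_seeded_707910d6.T2H31.HV.All

set_option autoImplicit false

/-!
# Conditioning on finitely many classes, and a zero-one law
-/

open Finset MeasureTheory ProbabilityTheory Filter Topology

namespace Pool.Agent.H531.SI

open Pool.Agent.T2H32.BF

variable {Ω : Type*} [MeasurableSpace Ω] {P : Measure Ω} {a : ℕ → Ω → ℕ}

open Classical in
/-- a property with conditional probability at most `η` -/
theorem cond_mul (h : Model P a) (S T : Finset ℕ) (hd : Disjoint S T) (A Q : (ℕ → ℕ) → Prop)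
    (hA : ∀ b b' : ℕ → ℕ, (∀ i ∈ S, b i = b' i) → (A b ↔ A b'))
    (hQ : ∀ b b' : ℕ → ℕ, (∀ i ∈ S ∪ T, b i = b' i) → (Q b ↔ Q b')) (η : ℝ) (hη : 0 ≤ η)
    (hyp : ∀ α : ℕ → ℕ, A α → P.real {ω | Q (fun i => if i ∈ S then α i else a i ω)} ≤ η) :
    P.real {ω | A (fun i => a i ω) ∧ Q (fun i => a i ω)} ≤ η * P.real {ω | A (fun i => a i ω)} := by
  have := prob h
  set X : Ω → (S → ℕ) := fun ω i => a i ω with hX
  set Y : Ω → (T → ℕ) := fun ω i => a i ω with hY
  have hXm : Measurable X := measurable_pi_lambda _ fun i => h.measurable i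
  have hYm : Measurable Y := measurable_pi_lambda _ fun i => h.measurable i
  have hind : IndepFun X Y P := h.independent.indepFun_finset S T hd h.measurable
  have hmap := (indepFun_iff_map_prod_eq_prod_map_map hXm.aemeasurable hYm.aemeasurable).1 hind
  set glue : (S → ℕ) → (T → ℕ) → ℕ → ℕ := fun x y i =>
    if hi : i ∈ S then x ⟨i, hi⟩ else if hi : i ∈ T then y ⟨i, hi⟩ else 0 with hglue
  set g0 : (S → ℕ) → ℕ → ℕ := fun x i => if hi : i ∈ S then x ⟨i, hi⟩ else 0 with hg0
  set 𝒬 : Set ((S → ℕ) × (T → ℕ)) := {z | A (g0 z.1) ∧ Q (glue z.1 z.2)} with h𝒬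
  set 𝒜 : Set (S → ℕ) := {x | A (g0 x)} with h𝒜
  have h𝒬m : MeasurableSet 𝒬 := (Set.to_countable 𝒬).measurableSet
  have h𝒜m : MeasurableSet 𝒜 := (Set.to_countable 𝒜).measurableSet
  have e1 : {ω | A (fun i => a i ω) ∧ Q (fun i => a i ω)} = (fun ω => (X ω, Y ω)) ⁻¹' 𝒬 := by
    ext ω
    simp only [h𝒬, Set.mem_ofPred_eq, Set.mem_preimage]
    refine and_congr (hA _ _ fun i hi => ?_) (hQ _ _ fun i hi => ?_)
    · simp only [hg0]
      rw [dif_pos hi]
    · simp only [hglue]
      rcases mem_union.1 hi with h1 | h1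
      · rw [dif_pos h1]
      · rw [dif_neg (fun h2 => disjoint_left.1 hd h2 h1), dif_pos h1]
  have e0 : {ω | A (fun i => a i ω)} = X ⁻¹' 𝒜 := by
    ext ω
    simp only [h𝒜, Set.mem_ofPred_eq, Set.mem_preimage]
    refine hA _ _ fun i hi => ?_
    simp only [hg0]
    rw [dif_pos hi]
  have e2 : P {ω | A (fun i => a i ω) ∧ Q (fun i => a i ω)} = ((P.map X).prod (P.map Y)) 𝒬 := by
    rw [← hmap, Measure.map_apply (hXm.prodMk hYm) h𝒬m, e1]
  have : IsProbabilityMeasure (P.map X) := Measure.isProbabilityMeasure_map hXm.aemeasurable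
  have : IsProbabilityMeasure (P.map Y) := Measure.isProbabilityMeasure_map hYm.aemeasurable
  have e3 : ∀ x : S → ℕ, (P.map Y) (Prod.mk x ⁻¹' 𝒬) ≤ 𝒜.indicator (fun _ => ENNReal.ofReal η) x := by
    intro x
    rw [Measure.map_apply hYm (Set.to_countable _).measurableSet]
    by_cases hx : x ∈ 𝒜
    · rw [Set.indicator_of_mem hx]
      have h1 := hyp (g0 x) hx
      have e4 : Y ⁻¹' (Prod.mk x ⁻¹' 𝒬) ⊆
          {ω | Q (fun i => if i ∈ S then g0 x i else a i ω)} := by
        intro ω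
        simp only [h𝒬, Set.mem_ofPred_eq, Set.mem_preimage]
        rintro ⟨-, h2⟩
        refine (hQ _ _ fun i hi => ?_).1 h2
        simp only [hglue, hg0]
        rcases mem_union.1 hi with h1 | h1
        · rw [dif_pos h1, if_pos h1, dif_pos h1]
        · have h2 : i ∉ S := fun h2 => disjoint_left.1 hd h2 h1
          rw [dif_neg h2, dif_pos h1, if_neg h2]
      refine (measure_mono e4).trans ?_
      rw [measureReal_def] at h1
      rw [← ENNReal.ofReal_toReal (measure_ne_top P _)]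
      exact ENNReal.ofReal_le_ofReal h1
    · have : Y ⁻¹' (Prod.mk x ⁻¹' 𝒬) = ∅ := by
        ext ω
        simp only [h𝒬, Set.mem_ofPred_eq, Set.mem_preimage, Set.mem_empty_iff_false, iff_false]
        exact fun h2 => hx h2.1
      rw [this, measure_empty]
      exact zero_le
  have e6 : P.real {ω | A (fun i => a i ω)} = ((P.map X) 𝒜).toReal := by
    rw [measureReal_def, e0, Measure.map_apply hXm h𝒜m]
  rw [measureReal_def, e2, Measure.prod_apply h𝒬m, e6]
  have e5 : ∫⁻ x, (P.map Y) (Prod.mk x ⁻¹' 𝒬) ∂(P.map X) ≤ ENNReal.ofReal η * (P.map X) 𝒜 := by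
    refine (lintegral_mono e3).trans ?_
    rw [lintegral_indicator_const h𝒜m]
  calc (∫⁻ x, (P.map Y) (Prod.mk x ⁻¹' 𝒬) ∂(P.map X)).toReal ≤ (ENNReal.ofReal η * (P.map X) 𝒜).toReal :=
        ENNReal.toReal_mono (ENNReal.mul_ne_top ENNReal.ofReal_ne_top (measure_ne_top _ _)) e5
    _ = η * ((P.map X) 𝒜).toReal := by rw [ENNReal.toReal_mul, ENNReal.toReal_ofReal hη]

/-- the first `m` classes -/
def rm (a : ℕ → Ω → ℕ) (m : ℕ) (ω : Ω) : Fin m → ℕ := fun i => a i ω

theorem rm_meas (h : Model P a) (m : ℕ) (B : Set (Fin m → ℕ)) : MeasurableSet (rm a m ⁻¹' B) := by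
  have h1 : Measurable (rm a m) := measurable_pi_lambda _ fun i => h.measurable i
  exact h1 (Set.to_countable B).measurableSet

theorem meas_dep (h : Model P a) (Q : (ℕ → ℕ) → Prop) (K : ℕ)
    (hQ : ∀ b b' : ℕ → ℕ, (∀ j < K, b j = b' j) → (Q b ↔ Q b')) :
    MeasurableSet {ω | Q fun j => a j ω} := by
  have e : {ω | Q fun j => a j ω} =
      rm a K ⁻¹' {c : Fin K → ℕ | Q fun j => if hj : j < K then c ⟨j, hj⟩ else 0} := by
    ext ω
    simp only [Set.mem_preimage, Set.mem_ofPred_eq]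
    refine hQ _ _ fun j hj => ?_
    rw [dif_pos hj]
    rfl
  rw [e]
  exact rm_meas h K _

/-- the filtration of the classes -/
def Fl (h : Model P a) : Filtration ℕ (inferInstance : MeasurableSpace Ω) where
  seq m := MeasurableSpace.comap (rm a m) ⊤
  mono' := by
    intro m n hmn
    rintro _ ⟨B, -, rfl⟩
    refine ⟨(fun c : Fin n → ℕ => fun i : Fin m => c (Fin.castLE hmn i)) ⁻¹' B, trivial, ?_⟩
    rfl
  le' := by
    rintro m _ ⟨B, -, rfl⟩
    exact rm_meas h m B

/-- **A zero-one law.** -/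
theorem zero_one (h : Model P a) (D : Set Ω) (hD : MeasurableSet[⨆ n, Fl h n] D) (c : ℝ) (hc : 0 < c)
    (hyp : ∀ (m : ℕ) (B : Set (Fin m → ℕ)), c * P.real (rm a m ⁻¹' B) ≤ P.real (rm a m ⁻¹' B ∩ D)) :
    ∀ᵐ ω ∂P, ω ∈ D := by
  have := prob h
  have hle : (⨆ n, Fl h n) ≤ (inferInstance : MeasurableSpace Ω) := iSup_le fun n => (Fl h).le n
  have hDm : MeasurableSet D := hle D hD
  set g : Ω → ℝ := Dᶜ.indicator fun _ => (1 : ℝ) with hg
  have hgi : Integrable g P := (integrable_const _).indicator hDm.compl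
  have htend := tendsto_ae_condExp (ℱ := Fl h) (μ := P) g
  have hlim : P[g|⨆ n, Fl h n] = g := by
    apply condExp_of_stronglyMeasurable hle
    · exact (stronglyMeasurable_const.indicator (MeasurableSet.compl hD))
    · exact hgi
  rw [hlim] at htend
  -- the sets where the conditional expectation is large are null
  have hnull : ∀ n, ∀ᵐ ω ∂P, (P[g|Fl h n]) ω ≤ 1 - c / 2 := by
    intro n
    have hsm : StronglyMeasurable[Fl h n] (P[g|Fl h n]) := stronglyMeasurable_condExp
    have hAm : MeasurableSet[Fl h n] {ω | 1 - c / 2 < (P[g|Fl h n]) ω} :=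
      hsm.measurable measurableSet_Ioi
    obtain ⟨B, -, hB⟩ := hAm
    have hAm' : MeasurableSet {ω | 1 - c / 2 < (P[g|Fl h n]) ω} := (Fl h).le n _ ⟨B, trivial, hB⟩
    have h1 := hyp n B
    rw [hB] at h1
    set A := {ω | 1 - c / 2 < (P[g|Fl h n]) ω} with hA
    have h2 : ∫ ω in A, (P[g|Fl h n]) ω ∂P = ∫ ω in A, g ω ∂P :=
      setIntegral_condExp ((Fl h).le n) hgi ⟨B, trivial, hB⟩
    have h3 : ∫ ω in A, g ω ∂P = P.real (A ∩ Dᶜ) := by
      rw [hg, setIntegral_indicator hDm.compl, setIntegral_const]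
      simp
    have h4 : (1 - c / 2) * P.real A ≤ ∫ ω in A, (P[g|Fl h n]) ω ∂P := by
      have h5 : ∫ ω in A, (1 - c / 2) ∂P ≤ ∫ ω in A, (P[g|Fl h n]) ω ∂P := by
        apply setIntegral_mono_on integrableOn_const integrable_condExp.integrableOn hAm'
        intro ω hω
        exact le_of_lt hω
      rw [setIntegral_const, smul_eq_mul] at h5
      linarith
    have h5 : P.real (A ∩ D) + P.real (A ∩ Dᶜ) = P.real A := by
      have := measureReal_inter_add_sdiff (μ := P) (s := A) hDm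
      rwa [Set.sdiff_eq] at this
    have h6 : P.real A = 0 := by
      have h7 : 0 ≤ P.real A := measureReal_nonneg
      by_contra h8
      have h9 : 0 < P.real A := lt_of_le_of_ne h7 (Ne.symm h8)
      nlinarith
    have h7 : P A = 0 := by
      rwa [measureReal_eq_zero_iff] at h6
    rw [ae_iff]
    convert h7 using 2
    ext ω
    simp [hA]
  filter_upwards [htend, ae_all_iff.2 hnull] with ω h1 h2
  by_contra h3
  have h4 : g ω = 1 := by
    rw [hg, Set.indicator_of_mem (show ω ∈ Dᶜ from h3)]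
  rw [h4] at h1
  have h5 := le_of_tendsto' h1 h2
  linarith

end Pool.Agent.H531.SI
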