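import Pool.Agent.H531.SI.Ae
import Pool.Agent.H531.SI.Anti
import Pool.Agent.H531.SI.Levy

set_option autoImplicit false

/-!
# The fluctuations are not smaller
-/

open Finset MeasureTheory ProbabilityTheory Filter Topology

namespace Pool.Agent.H531.SI

open Pool.Agent.T2H31.HV Pool.Agent.T2H32.BF

/-- infinitely many of the events occur -/
theorem io_of_cond {Ω : Type*} [MeasurableSpace Ω] {P : Measure Ω} {a : ℕ → Ω → ℕ} (h : Model P a)
    (E : ℕ → (ℕ → ℕ) → Prop) (N : ℕ → ℕ)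
    (hE : ∀ i, ∀ b b' : ℕ → ℕ, (∀ j < N i, b j = b' j) → (E i b ↔ E i b')) (c : ℝ) (hc : 0 < c)
    (hyp : ∀ (m : ℕ) (A : (ℕ → ℕ) → Prop), (∀ b b' : ℕ → ℕ, (∀ j < m, b j = b' j) → (A b ↔ A b')) →
      ∀ ε : ℝ, 0 < ε → ∃ᶠ i in atTop, c * (P.real {ω | A (fun j => a j ω)} - ε) ≤
        P.real {ω | A (fun j => a j ω) ∧ E i (fun j => a j ω)}) :
    ∀ᵐ ω ∂P, ∃ᶠ i in atTop, E i (fun j => a j ω) := by
  have := prob h
  have hk : ∀ k : ℕ, ∀ᵐ ω ∂P, ω ∈ {ω | ∃ i ≥ k, E i (fun j => a j ω)} := by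
    intro k
    set D := {ω | ∃ i ≥ k, E i (fun j => a j ω)} with hD
    refine zero_one h D ?_ c hc ?_
    · have e : D = ⋃ i ∈ Set.Ici k, {ω | E i (fun j => a j ω)} := by
        ext ω
        simp [hD]
      rw [e]
      refine MeasurableSet.biUnion (Set.to_countable _) fun i _ => ?_
      have h1 : MeasurableSet[Fl h (N i)] {ω | E i (fun j => a j ω)} := by
        refine ⟨{c : Fin (N i) → ℕ | E i fun j => if hj : j < N i then c ⟨j, hj⟩ else 0}, trivial, ?_⟩
        ext ω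
        simp only [Set.mem_preimage, Set.mem_ofPred_eq]
        refine hE i _ _ fun j hj => ?_
        rw [dif_pos hj]
        rfl
      exact le_iSup (fun n => Fl h n) (N i) _ h1
    · intro m B
      set A : (ℕ → ℕ) → Prop := fun b => (fun i : Fin m => b i) ∈ B with hA
      have hA' : ∀ b b' : ℕ → ℕ, (∀ j < m, b j = b' j) → (A b ↔ A b') := by
        intro b b' hb
        simp only [hA]
        have : (fun i : Fin m => b i) = fun i : Fin m => b' i := by
          funext i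
          exact hb i i.2
        rw [this]
      have e1 : rm a m ⁻¹' B = {ω | A (fun j => a j ω)} := rfl
      rw [e1]
      refine le_of_forall_pos_le_add fun ε hε => ?_
      have h1 := (hyp m A hA' (ε / c) (by positivity)).and_eventually (eventually_ge_atTop k)
      obtain ⟨i, h2, h3⟩ := h1.exists
      have h4 : P.real {ω | A (fun j => a j ω) ∧ E i (fun j => a j ω)} ≤
          P.real ({ω | A (fun j => a j ω)} ∩ D) := by
        refine measureReal_mono ?_ (measure_ne_top _ _)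
        rintro ω ⟨h5, h6⟩
        exact ⟨h5, i, h3, h6⟩
      have h5 : c * (P.real {ω | A (fun j => a j ω)} - ε / c) = c * P.real {ω | A (fun j => a j ω)} - ε := by
        field_simp
      linarith
  filter_upwards [ae_all_iff.2 hk] with ω hω
  rw [frequently_atTop]
  intro k
  obtain ⟨i, h1, h2⟩ := hω k
  exact ⟨i, h1, h2⟩

/-- the large primes -/
noncomputable def LL (y : ℕ) : Finset ℕ := (Ioc y ⌊(y : ℝ) ^ (21 / 20 : ℝ)⌋₊).filter Nat.Prime

theorem LL_prime {y p : ℕ} (hp : p ∈ LL y) : p.Prime := (mem_filter.1 hp).2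

theorem LL_gt {y p : ℕ} (hp : p ∈ LL y) : y < p := (mem_Ioc.1 (mem_filter.1 hp).1).1

theorem LL_le {y p : ℕ} (hp : p ∈ LL y) : p ≤ ⌊(y : ℝ) ^ (21 / 20 : ℝ)⌋₊ := (mem_Ioc.1 (mem_filter.1 hp).1).2

theorem floor_tend (s : ℝ) (hs : 0 < s) : Tendsto (fun y : ℕ => ⌊(y : ℝ) ^ s⌋₊) atTop atTop :=
  tendsto_nat_floor_atTop.comp ((tendsto_rpow_atTop hs).comp tendsto_natCast_atTop_atTop)

theorem harm_bounds : ∀ᶠ y : ℕ in atTop, 1 / 25 ≤ ∑ p ∈ LL y, 1 / (p : ℝ) ∧
    ∑ p ∈ LL y, 1 / (p : ℝ) ≤ 1 / 2 := by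
  set g := Real.exp (-Real.eulerMascheroniConstant) with hg
  have hg0 : 0 < g := Real.exp_pos _
  have e1 : ∀ᶠ n : ℕ in atTop, g * 0.999 < V n * Real.log n ∧ V n * Real.log n < g * 1.001 := by
    have h1 := mertens.eventually_const_lt (show g * 0.999 < g by nlinarith)
    have h2 := mertens.eventually_lt_const (show g < g * 1.001 by nlinarith)
    exact h1.and h2
  have e2 := (floor_tend (21 / 20) (by norm_num)).eventually e1
  have e3 : ∀ᶠ y : ℕ in atTop, (1000 : ℝ) ≤ Real.log y :=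
    (Real.tendsto_log_atTop.comp tendsto_natCast_atTop_atTop).eventually_ge_atTop 1000
  filter_upwards [e1, e2, e3, eventually_ge_atTop 2] with y h1 h2 h3 h4
  have hy : (2 : ℝ) ≤ y := by exact_mod_cast h4
  have hy0 : (0 : ℝ) < y := by linarith
  set Y := ⌊(y : ℝ) ^ (21 / 20 : ℝ)⌋₊ with hY
  have hyY' : (y : ℝ) ≤ (y : ℝ) ^ (21 / 20 : ℝ) := by
    calc (y : ℝ) = (y : ℝ) ^ (1 : ℝ) := (Real.rpow_one _).symm
      _ ≤ _ := Real.rpow_le_rpow_of_exponent_le (by linarith) (by norm_num)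
  have hyY : y ≤ Y := Nat.le_floor hyY'
  have hYu : (Y : ℝ) ≤ (y : ℝ) ^ (21 / 20 : ℝ) := Nat.floor_le (by positivity)
  have hYl : (y : ℝ) ^ (21 / 20 : ℝ) / 2 ≤ Y := by
    have := Nat.lt_floor_add_one ((y : ℝ) ^ (21 / 20 : ℝ))
    have : (y : ℝ) ^ (21 / 20 : ℝ) < Y + 1 := this
    have h5 : (2 : ℝ) ≤ (y : ℝ) ^ (21 / 20 : ℝ) := by linarith
    linarith
  have hY0 : (0 : ℝ) < Y := lt_of_lt_of_le (by positivity) hYl
  have hlogYu : Real.log Y ≤ 21 / 20 * Real.log y := by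
    rw [← Real.log_rpow hy0]
    exact Real.log_le_log hY0 hYu
  have hlogYl : 21 / 20 * Real.log y - Real.log 2 ≤ Real.log Y := by
    rw [← Real.log_rpow hy0, ← Real.log_div (by positivity) (by norm_num)]
    exact Real.log_le_log (by positivity) hYl
  have hlog2 : Real.log 2 < 1 := by linarith [Real.log_two_lt_d9]
  have hr : V Y / V y = ∏ p ∈ LL y, (1 - 1 / (p : ℝ)) := V_ratio y Y hyY
  have hVy := V_pos y
  have hVY := V_pos Y
  set ly := Real.log y with hly
  set lY := Real.log Y with hlY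
  have hlY0 : 0 < lY := by linarith
  have hly0 : 0 < ly := by linarith
  have hup : V Y / V y ≤ 24 / 25 := by
    rw [div_le_iff₀ hVy]
    -- `V Y ≤ 1.001 g / lY`, `V y ≥ 0.999 g / ly`
    have h5 : V Y * lY * ly ≤ g * 1.001 * ly := by nlinarith [h2.2]
    have h6 : g * 0.999 * lY ≤ V y * ly * lY := by nlinarith [h1.1]
    have h7 : 1.0489 * ly ≤ lY := by linarith
    have h8 : V Y * (lY * ly) ≤ 24 / 25 * V y * (lY * ly) := by
      have h9 : 1.001 * ly ≤ 24 / 25 * 0.999 * lY := by nlinarith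
      nlinarith
    exact le_of_mul_le_mul_right h8 (by positivity)
  have hlow : 9 / 10 ≤ V Y / V y := by
    rw [le_div_iff₀ hVy]
    have h5 : g * 0.999 * ly ≤ V Y * lY * ly := by nlinarith [h2.1]
    have h6 : V y * ly * lY ≤ g * 1.001 * lY := by nlinarith [h1.2]
    have h8 : 9 / 10 * V y * (lY * ly) ≤ V Y * (lY * ly) := by
      have h9 : 9 / 10 * 1.001 * lY ≤ 0.999 * ly := by nlinarith
      nlinarith
    exact le_of_mul_le_mul_right h8 (by positivity)
  have hp1 : ∀ p ∈ LL y, 1 / (p : ℝ) ≤ 1 := by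
    intro p hp
    have : (2 : ℝ) ≤ p := by exact_mod_cast (LL_prime hp).two_le
    rw [div_le_one (by linarith)]
    linarith
  have h5 := prod_one_sub_ge (LL y) (fun p => 1 / (p : ℝ)) (fun p _ => by positivity) hp1
  have h6 := prod_le_exp (LL y) (fun p => 1 / (p : ℝ)) hp1
  rw [← hr] at h5 h6
  constructor
  · linarith
  · by_contra hcon
    push Not at hcon
    have h7 : Real.exp (-∑ p ∈ LL y, 1 / (p : ℝ)) ≤ Real.exp (-(1 / 2)) := Real.exp_le_exp.2 (by linarith)
    have h8 : Real.exp (-(1 / 2)) < 9 / 10 := by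
      rw [Real.exp_neg, inv_lt_comm₀ (Real.exp_pos _) (by norm_num)]
      have := Real.add_one_le_exp (1 / 2 : ℝ)
      norm_num at this ⊢
      linarith
    linarith

theorem z0_large : ∀ᶠ x : ℕ in atTop, ⌊(x : ℝ) ^ (11 / 20 : ℝ)⌋₊ ≤ z0 x := by
  have hg : (5 : ℝ) / 9 < Real.exp (-Real.eulerMascheroniConstant) := by
    rw [Real.exp_neg, lt_inv_comm₀ (by norm_num) (Real.exp_pos _)]
    have := expg
    norm_num
    linarith
  have h1 := (floor_tend (11 / 20) (by norm_num)).eventually (mertens.eventually_const_lt hg)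
  have h3 := (floor_tend (11 / 20) (by norm_num)).eventually (eventually_ge_atTop 3)
  filter_upwards [h1, h3, eventually_ge_atTop 3] with x hx1 hx3 hx4
  have hx : (3 : ℝ) ≤ x := by exact_mod_cast hx4
  have hx0 : (0 : ℝ) < x := by linarith
  set m := ⌊(x : ℝ) ^ (11 / 20 : ℝ)⌋₊ with hm
  have hm3 : (3 : ℝ) ≤ m := by exact_mod_cast hx3
  have hmu : (m : ℝ) ≤ (x : ℝ) ^ (11 / 20 : ℝ) := Nat.floor_le (by positivity)
  have hlog : Real.log m ≤ 11 / 20 * Real.log x := by
    rw [← Real.log_rpow hx0]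
    exact Real.log_le_log (by linarith) hmu
  have hlogm : 0 < Real.log m := Real.log_pos (by linarith)
  have hVm := V_pos m
  refine le_csSup (z0_bdd x) ?_
  show (V m)⁻¹ ≤ Real.log x
  rw [inv_le_iff_one_le_mul₀ hVm]
  nlinarith

open Classical in
/-- the integers of the window not sieved by the primes outside of `LL y` -/
noncomputable def Tb (x y : ℕ) (b : ℕ → ℕ) : Finset ℕ :=
  (Ioc x (x + y)).filter fun n => ∀ p ∈ PN (x + y), p ∉ LL y → p ≤ z0 n → n % p ≠ b p

theorem Tb_congr (x y : ℕ) (b b' : ℕ → ℕ) (h : ∀ p ∈ range (x + y + 1) \ LL y, b p = b' p) :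
    Tb x y b = Tb x y b' := by
  unfold Tb
  refine filter_congr fun n _ => ?_
  refine forall_congr' fun p => forall_congr' fun hp => forall_congr' fun hp2 => ?_
  rw [h p (by
    rw [Finset.mem_sdiff, mem_range]
    rw [mem_PN] at hp
    exact ⟨by omega, hp2⟩)]

theorem Tb_sep (x y : ℕ) (b : ℕ → ℕ) : Sep (Tb x y b) (LL y) := by
  intro p hp t ht t' ht' h
  have h1 := LL_gt hp
  unfold Tb at ht ht'
  rw [mem_filter, mem_Ioc] at ht ht'
  have h2 : t ≡ t' [MOD p] := h
  rcases le_total t t' with h3 | h3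
  · have h4 := (Nat.modEq_iff_dvd' h3).1 h2
    have h5 := Nat.eq_zero_of_dvd_of_lt h4 (by omega)
    omega
  · have h4 := (Nat.modEq_iff_dvd' h3).1 h2.symm
    have h5 := Nat.eq_zero_of_dvd_of_lt h4 (by omega)
    omega

open Classical in
theorem R_eq (x y : ℕ) (hx : 2 ≤ x) (hY : ⌊(y : ℝ) ^ (21 / 20 : ℝ)⌋₊ ≤ z0 x) (b : ℕ → ℕ) :
    (Ioc x (x + y)).filter (fun n => n ∈ R z0 b) = Sw (Tb x y b) (LL y) b := by
  have hzle : ∀ n, z0 n ≤ n := T_Z.1
  unfold Sw Tb
  rw [filter_filter]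
  refine filter_congr fun n hn => ?_
  rw [mem_Ioc] at hn
  constructor
  · rintro ⟨-, h⟩
    refine ⟨fun p hp _ hp3 => h p hp3 ((mem_PN _ _).1 hp).2, fun p hp => ?_⟩
    exact h p ((LL_le hp).trans (hY.trans (z0_mono (by omega)))) (LL_prime hp)
  · rintro ⟨h1, h2⟩
    refine ⟨by omega, fun p hp hp2 => ?_⟩
    by_cases h3 : p ∈ LL y
    · exact h2 p h3
    · refine h1 p ?_ h3 hp
      rw [mem_PN]
      have := hzle n
      exact ⟨by omega, hp2⟩


/-- the conditional probability of a large deviation -/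
theorem cond_dev {Ω : Type} [MeasurableSpace Ω] {P : Measure Ω} {a : ℕ → Ω → ℕ} (h : Model P a)
    (T : Finset ℕ) (y : ℕ) (hsep : Sep T (LL y)) (hy : 1 ≤ y)
    (hH1 : 1 / 25 ≤ ∑ p ∈ LL y, 1 / (p : ℝ)) (hH2 : ∑ p ∈ LL y, 1 / (p : ℝ) ≤ 1 / 2)
    (hT1 : 25 ≤ T.card) (hT2 : (T.card : ℝ) ≤ y / 8) (M : ℝ) :
    P.real {ω | ¬ ((T.card : ℝ) / 400 ≤ ((Sw T (LL y) fun q => a q ω).card - M) ^ 2)} ≤ 1 - 1 / 140000 := by
  classical
  have := prob h
  have hLp : ∀ p ∈ LL y, p.Prime := fun p hp => LL_prime hp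
  set H := ∑ p ∈ LL y, 1 / (p : ℝ) with hH
  have hT1' : (25 : ℝ) ≤ T.card := by exact_mod_cast hT1
  have hy' : (1 : ℝ) ≤ y := by exact_mod_cast hy
  have hD : T.card * ∑ p ∈ LL y, 1 / ((p : ℝ) - 1) ^ 2 ≤ H / 4 := by
    have h1 : ∀ p ∈ LL y, 1 / ((p : ℝ) - 1) ^ 2 ≤ 2 / y * (1 / (p : ℝ)) := by
      intro p hp
      have h2 : (y : ℝ) + 1 ≤ p := by exact_mod_cast LL_gt hp
      have h3 : (2 : ℝ) ≤ p := by exact_mod_cast (LL_prime hp).two_le
      rw [div_mul_div_comm, div_le_div_iff₀ (by nlinarith) (by positivity)]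
      nlinarith
    calc T.card * ∑ p ∈ LL y, 1 / ((p : ℝ) - 1) ^ 2 ≤ T.card * ∑ p ∈ LL y, 2 / y * (1 / (p : ℝ)) := by
          apply mul_le_mul_of_nonneg_left (sum_le_sum h1) (by positivity)
      _ = T.card * (2 / y) * H := by
        rw [← mul_sum]
        ring
      _ ≤ (y / 8) * (2 / y) * H := by gcongr
      _ = H / 4 := by
        field_simp
        norm_num
  have h1 := anti T (LL y) hLp hsep hH2 hD (by nlinarith) M
  set F : (ℕ → ℕ) → ℝ := fun b => if T.card * H / 16 ≤ ((Sw T (LL y) b).card - M) ^ 2 then 1 else 0 with hF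
  have hdep : Dep (LL y) F := by
    intro b b' hb
    have : Sw T (LL y) b = Sw T (LL y) b' := by
      unfold Sw
      refine filter_congr fun t _ => forall_congr' fun p => forall_congr' fun hp => ?_
      rw [hb p hp]
    simp only [hF, this]
  obtain ⟨h2, h3⟩ := T_TR Ω P a h (LL y) F hLp hdep
  -- the complementary event
  set G : (ℕ → ℕ) → ℝ := fun b => if (T.card : ℝ) / 400 ≤ ((Sw T (LL y) b).card - M) ^ 2 then 1 else 0 with hG
  have hdepG : Dep (LL y) G := by
    intro b b' hb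
    have : Sw T (LL y) b = Sw T (LL y) b' := by
      unfold Sw
      refine filter_congr fun t _ => forall_congr' fun p => forall_congr' fun hp => ?_
      rw [hb p hp]
    simp only [hG, this]
  obtain ⟨h4, h5⟩ := T_TR Ω P a h (LL y) G hLp hdepG
  have hm : MeasurableSet {ω | (T.card : ℝ) / 400 ≤ ((Sw T (LL y) fun q => a q ω).card - M) ^ 2} := by
    refine meas_dep h (fun b => (T.card : ℝ) / 400 ≤ ((Sw T (LL y) b).card - M) ^ 2)
      ((LL y).sup id + 1) fun b b' hb => ?_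
    have : Sw T (LL y) b = Sw T (LL y) b' := by
      unfold Sw
      refine filter_congr fun t _ => forall_congr' fun p => forall_congr' fun hp => ?_
      have hpK : id p ≤ (LL y).sup id := le_sup hp
      simp only [id] at hpK
      rw [hb p (by omega)]
    rw [this]
  have hGi : ∫ ω, G (fun q => a q ω) ∂P =
      P.real {ω | (T.card : ℝ) / 400 ≤ ((Sw T (LL y) fun q => a q ω).card - M) ^ 2} := by
    rw [← integral_indicator_one hm]
    refine integral_congr_ae (Eventually.of_forall fun ω => ?_)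
    simp only [hG, Set.indicator, Set.mem_ofPred_eq, Pi.one_apply]
  have h6 : 1 / 140000 ≤ P.real {ω | (T.card : ℝ) / 400 ≤ ((Sw T (LL y) fun q => a q ω).card - M) ^ 2} := by
    rw [← hGi, h5]
    refine h1.trans (Ev_mono _ _ _ fun b _ => ?_)
    simp only [hG]
    by_cases hb : (T.card : ℝ) / 400 ≤ ((Sw T (LL y) b).card - M) ^ 2
    · rw [if_pos hb]
      simp only [hF]
      split_ifs <;> norm_num
    · rw [if_neg hb]
      simp only [hF]
      rw [if_neg]
      intro h7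
      apply hb
      refine le_trans ?_ h7
      rw [div_le_div_iff₀ (by norm_num) (by norm_num)]
      nlinarith
  have h7 : {ω | ¬ ((T.card : ℝ) / 400 ≤ ((Sw T (LL y) fun q => a q ω).card - M) ^ 2)} =
      {ω | (T.card : ℝ) / 400 ≤ ((Sw T (LL y) fun q => a q ω).card - M) ^ 2}ᶜ := rfl
  rw [h7, probReal_compl_eq_one_sub hm]
  linarith

end Pool.Agent.H531.SI
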