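import Pool.Agent.H531.SI.Fluct

set_option autoImplicit false

/-!
# Counts of the survivors of the random sieve in short intervals: almost sure bounds
-/

open Finset MeasureTheory ProbabilityTheory Filter Topology

namespace Pool.Agent.H531.SI

open Pool.Agent.T2H31.HV

theorem numeric (θ η : ℝ) (hθ : 0 < θ) (hη : 0 < η) : ∃ (k : ℕ) (C : ℝ), 0 < C ∧ ∀ᶠ x : ℕ in atTop,
    ∀ y : ℕ, (x : ℝ) ^ θ ≤ y → y ≤ x →
    (9 * (y : ℝ)) ^ k *
      (∏ p ∈ PN (x + y), (1 + (1 + √(3 / 2)) ^ (2 * k) / (p : ℝ))) / ((y : ℝ) ^ (1 / 2 + η)) ^ (2 * k) ≤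
        C / (x : ℝ) ^ 3 := by
  obtain ⟨C1, hC1, hV⟩ := V_inv_le
  set k := ⌈4 / (2 * η * θ)⌉₊ with hk
  have hk5 : 4 ≤ 2 * k * η * θ := by
    have := Nat.le_ceil (4 / (2 * η * θ))
    rw [div_le_iff₀ (by positivity)] at this
    linarith
  set K := (1 + √(3 / 2)) ^ (2 * k) with hK
  have hK0 : 0 ≤ K := by positivity
  set A := ⌈K⌉₊ with hA
  refine ⟨k, 18 ^ k * C1 ^ ⌈K⌉₊, by positivity, ?_⟩
  have hlog : ∀ᶠ N : ℕ in atTop, Real.log (2 * N) ^ A ≤ N := by
    have h1 : Tendsto (fun N : ℕ => 2 * (N : ℝ)) atTop atTop :=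
      tendsto_natCast_atTop_atTop.const_mul_atTop (by norm_num)
    have h2 := ((Real.isLittleO_pow_log_id_atTop (n := A)).comp_tendsto h1).bound
      (show (0 : ℝ) < 1 / 2 by norm_num)
    filter_upwards [h2] with N h3
    simp only [Function.comp, id, Real.norm_eq_abs] at h3
    have h4 : |2 * (N : ℝ)| = 2 * N := abs_of_nonneg (by positivity)
    rw [h4] at h3
    calc Real.log (2 * N) ^ A ≤ |Real.log (2 * N) ^ A| := le_abs_self _
      _ ≤ 1 / 2 * (2 * N) := h3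
      _ = N := by ring
  obtain ⟨N1, hN1⟩ := eventually_atTop.1 hV
  filter_upwards [hlog, eventually_ge_atTop 2, eventually_ge_atTop N1] with x h2 h3 h4 y hy hyx
  have h1 := hN1 (x + y) (by omega)
  have hx : (2 : ℝ) ≤ x := by exact_mod_cast h3
  have hx0 : (0 : ℝ) < x := by linarith
  have hyx' : (y : ℝ) ≤ x := by exact_mod_cast hyx
  have hxθ : 0 < (x : ℝ) ^ θ := Real.rpow_pos_of_pos hx0 _
  have hy0 : (0 : ℝ) < y := by linarith
  set L := Real.log (2 * x) with hL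
  have hL0 : 0 ≤ L := Real.log_nonneg (by linarith)
  have hLN : Real.log ((x + y : ℕ) : ℝ) ≤ L := Real.log_le_log (by push_cast; linarith) (by
    push_cast
    linarith)
  have hprod : ∏ p ∈ PN (x + y), (1 + K / (p : ℝ)) ≤ (C1 * L) ^ A := by
    refine (prod_le_V K hK0 (x + y)).trans ?_
    apply pow_le_pow_left₀ (inv_nonneg.2 (T2H32.BF.V_pos _).le)
    exact h1.trans (by gcongr)
  have hprod0 : 0 ≤ ∏ p ∈ PN (x + y), (1 + K / (p : ℝ)) := prod_nonneg fun p _ => by positivity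
  have hpow : (y : ℝ) ^ k * (x : ℝ) ^ 4 ≤ ((y : ℝ) ^ (1 / 2 + η)) ^ (2 * k) := by
    have e1 : ((y : ℝ) ^ (1 / 2 + η)) ^ (2 * k) = (y : ℝ) ^ k * (y : ℝ) ^ (2 * k * η) := by
      rw [← Real.rpow_natCast ((y : ℝ) ^ (1 / 2 + η)), ← Real.rpow_mul hy0.le,
        ← Real.rpow_natCast (y : ℝ) k, ← Real.rpow_add hy0]
      congr 1
      push_cast
      ring
    rw [e1]
    gcongr
    calc (x : ℝ) ^ 4 = (x : ℝ) ^ (4 : ℝ) := by norm_cast
      _ ≤ (x : ℝ) ^ (θ * (2 * k * η)) := by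
        apply Real.rpow_le_rpow_of_exponent_le (by linarith)
        linarith
      _ = ((x : ℝ) ^ θ) ^ (2 * k * η) := by rw [← Real.rpow_mul hx0.le]
      _ ≤ (y : ℝ) ^ (2 * k * η) := by
        apply Real.rpow_le_rpow hxθ.le hy (by positivity)
  have hbase : (9 * (y : ℝ)) ^ k ≤ 18 ^ k * (y : ℝ) ^ k := by
    rw [mul_pow]
    gcongr
    norm_num
  rw [div_le_div_iff₀ (by positivity) (by positivity)]
  calc (9 * (y : ℝ)) ^ k * (∏ p ∈ PN (x + y), (1 + K / (p : ℝ))) * (x : ℝ) ^ 3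
      ≤ (18 ^ k * (y : ℝ) ^ k) * (C1 * L) ^ A * (x : ℝ) ^ 3 := by
        gcongr
    _ = (18 ^ k * C1 ^ A) * ((y : ℝ) ^ k * (x : ℝ) ^ 3 * L ^ A) := by
        rw [mul_pow]
        ring
    _ ≤ (18 ^ k * C1 ^ A) * ((y : ℝ) ^ k * (x : ℝ) ^ 3 * x) := by
        gcongr
    _ = (18 ^ k * C1 ^ A) * ((y : ℝ) ^ k * (x : ℝ) ^ 4) := by ring
    _ ≤ _ := by gcongr

theorem ae_fluct {Ω : Type} [MeasurableSpace Ω] {P : Measure Ω}
    {a : ℕ → Ω → ℕ} (hM : T2H32.BF.Model P a) {z : ℕ → ℕ} (hz : Monotone z) (θ η : ℝ) (hθ : 0 < θ)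
    (hη : 0 < η) : ∀ᵐ ω ∂P, ∀ᶠ x : ℕ in atTop, ∀ y : ℕ, (x : ℝ) ^ θ ≤ y → y ≤ x →
      |CF z (x + y) x y (fun q => a q ω) - EC z (x + y) x y| ≤ (y : ℝ) ^ (1 / 2 + η) := by
  classical
  have := T2H32.BF.prob hM
  obtain ⟨k, C, hC, hev⟩ := numeric θ η hθ hη
  obtain ⟨N0, hN0⟩ := eventually_atTop.1 (hev.and (eventually_ge_atTop 2))
  set A : ℕ → ℕ → Set Ω := fun x y =>
    {ω | (y : ℝ) ^ (1 / 2 + η) < |CF z (x + y) x y (fun q => a q ω) - EC z (x + y) x y|} with hA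
  have hb : ∀ x ≥ N0, ∀ y : ℕ, (x : ℝ) ^ θ ≤ y → y ≤ x →
      P (A x y) ≤ ENNReal.ofReal (C / (x : ℝ) ^ 3) := by
    intro x hx y hy hyx
    obtain ⟨h1, h2⟩ := hN0 x hx
    have hx2 : (2 : ℝ) ≤ x := by exact_mod_cast h2
    have hxθ : 0 < (x : ℝ) ^ θ := Real.rpow_pos_of_pos (by linarith) _
    have hy0 : (0 : ℝ) < y := by linarith
    rw [← ofReal_measureReal]
    apply ENNReal.ofReal_le_ofReal
    exact (tail hM hz (x + y) x y k _ (Real.rpow_pos_of_pos hy0 _)).trans (h1 y hy hyx)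
  set s : ℕ → Set Ω := fun x => if N0 ≤ x then
    ⋃ y ∈ (range (x + 1)).filter (fun y : ℕ => (x : ℝ) ^ θ ≤ y), A x y else ∅ with hs
  have hsb : ∀ x, P (s x) ≤ ENNReal.ofReal (2 * C * (1 / (x : ℝ) ^ 2)) := by
    intro x
    by_cases hx : N0 ≤ x
    · simp only [hs, if_pos hx]
      obtain ⟨-, h2⟩ := hN0 x hx
      have hx2 : (2 : ℝ) ≤ x := by exact_mod_cast h2
      calc P (⋃ y ∈ (range (x + 1)).filter (fun y : ℕ => (x : ℝ) ^ θ ≤ y), A x y)
          ≤ ∑ y ∈ (range (x + 1)).filter (fun y : ℕ => (x : ℝ) ^ θ ≤ y), P (A x y) :=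
            measure_biUnion_finset_le _ _
        _ ≤ ∑ y ∈ (range (x + 1)).filter (fun y : ℕ => (x : ℝ) ^ θ ≤ y),
              ENNReal.ofReal (C / (x : ℝ) ^ 3) := by
            refine sum_le_sum fun y hy => ?_
            rw [mem_filter, mem_range] at hy
            exact hb x hx y hy.2 (by omega)
        _ ≤ ∑ y ∈ range (x + 1), ENNReal.ofReal (C / (x : ℝ) ^ 3) :=
            sum_le_sum_of_subset (filter_subset _ _)
        _ = ENNReal.ofReal (((x : ℝ) + 1) * (C / (x : ℝ) ^ 3)) := by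
            have h5 : ENNReal.ofReal ((x : ℝ) + 1) = ((x + 1 : ℕ) : ENNReal) := by
              rw [← ENNReal.ofReal_natCast]
              push_cast
              rfl
            rw [sum_const, card_range, nsmul_eq_mul, ENNReal.ofReal_mul (by positivity), h5]
        _ ≤ ENNReal.ofReal (2 * C * (1 / (x : ℝ) ^ 2)) := by
            apply ENNReal.ofReal_le_ofReal
            have hN0' : (0 : ℝ) < x := by linarith
            rw [show ((x : ℝ) + 1) * (C / (x : ℝ) ^ 3) =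
              (C * ((x : ℝ) + 1)) / (x : ℝ) ^ 3 by ring,
              show 2 * C * (1 / (x : ℝ) ^ 2) = (2 * C * (x : ℝ)) / (x : ℝ) ^ 3 by
                field_simp]
            gcongr ?_ / _
            nlinarith
    · simp only [hs, if_neg hx, measure_empty, zero_le]
  have hsum : ∑' N, P (s N) ≠ ⊤ := by
    have h1 : Summable fun N : ℕ => 2 * C * (1 / (N : ℝ) ^ 2) :=
      (Real.summable_one_div_nat_pow.2 (by norm_num)).mul_left _
    have h2 := ENNReal.ofReal_tsum_of_nonneg (fun N => by positivity) h1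
    exact ne_top_of_le_ne_top (by rw [← h2]; exact ENNReal.ofReal_ne_top) (ENNReal.tsum_le_tsum hsb)
  filter_upwards [ae_eventually_notMem hsum] with ω hω
  filter_upwards [hω, eventually_ge_atTop N0] with x h1 h2 y hy hyx
  simp only [hs, if_pos h2, Set.mem_iUnion, not_exists] at h1
  exact not_lt.1 (h1 y (mem_filter.2 ⟨mem_range.2 (by omega), hy⟩))

/-! ## The expected value -/

theorem EC_eq {z : ℕ → ℕ} (hz : ∀ n, z n ≤ n) (N x y : ℕ) (hN : x + y ≤ N) :
    EC z N x y = ∑ m ∈ range y, T2H32.BF.V (z (m + (x + 1))) := by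
  unfold EC
  refine sum_congr rfl fun m hm => ?_
  rw [mem_range] at hm
  set n := m + (x + 1) with hn
  unfold T2H32.BF.V ind
  have hz' := hz n
  have e : PN N = (range (z n + 1)).filter Nat.Prime ∪ (PN N).filter (fun p => z n < p) := by
    ext p
    rw [mem_union, mem_filter, mem_filter, mem_PN, mem_range]
    constructor
    · rintro ⟨h1, h2⟩
      rcases le_or_gt p (z n) with h3 | h3
      · exact Or.inl ⟨by omega, h2⟩
      · exact Or.inr ⟨⟨h1, h2⟩, h3⟩
    · rintro (⟨h1, h2⟩ | ⟨⟨h1, h2⟩, h3⟩)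
      · exact ⟨by omega, h2⟩
      · exact ⟨h1, h2⟩
  rw [e, prod_union]
  · have h1 : ∏ p ∈ (PN N).filter (fun p => z n < p), (1 - (if p ≤ z n then (1 : ℝ) else 0) / p) = 1 := by
      apply prod_eq_one
      intro p hp
      rw [mem_filter] at hp
      rw [if_neg (by omega)]
      simp
    rw [h1, mul_one]
    refine prod_congr rfl fun p hp => ?_
    rw [mem_filter, mem_range] at hp
    rw [if_pos (by omega)]
  · rw [disjoint_left]
    intro p hp hp2
    rw [mem_filter, mem_range] at hp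
    rw [mem_filter] at hp2
    omega

open Classical in
theorem CF_eq {z : ℕ → ℕ} (hz : ∀ n, z n ≤ n) (N x y : ℕ) (hN : x + y ≤ N) (hx : 2 ≤ x) (b : ℕ → ℕ) :
    CF z N x y b = (((Ioc x (x + y)).filter (fun n => n ∈ T2H32.BF.R z b)).card : ℝ) := by
  have e0 : ∑ m ∈ range y, sw z N b (m + (x + 1)) = ∑ n ∈ Ioc x (x + y), sw z N b n := by
    have : Ioc x (x + y) = Ico (x + 1) (x + 1 + y) := by
      ext n
      rw [mem_Ioc, mem_Ico]
      omega
    rw [this, sum_Ico_eq_sum_range, show x + 1 + y - (x + 1) = y by omega]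
    refine sum_congr rfl fun m _ => ?_
    rw [add_comm]
  unfold CF
  rw [e0, card_filter, Nat.cast_sum]
  refine sum_congr rfl fun n hn => ?_
  rw [mem_Ioc] at hn
  unfold sw
  have hiff : (∀ p ∈ PN N, p ≤ z n → n % p ≠ b p) ↔ n ∈ T2H32.BF.R z b := by
    constructor
    · intro h
      refine ⟨by omega, fun p hp hp2 => h p ?_ hp⟩
      rw [mem_PN]
      have := hz n
      exact ⟨by omega, hp2⟩
    · rintro ⟨-, h⟩ p hp hp2
      rw [mem_PN] at hp
      exact h p hp2 hp.2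
  by_cases h : n ∈ T2H32.BF.R z b
  · rw [if_pos (hiff.2 h), if_pos h]
    simp
  · rw [if_neg (fun h2 => h (hiff.1 h2)), if_neg h]
    simp

open T2H32.BF in
/-- the expected value against the integral -/
theorem EC_int : ∀ᶠ x : ℕ in atTop, ∀ y : ℕ, y ≤ x →
    |∑ m ∈ range y, V (z0 (m + (x + 1))) - ∫ t in (x : ℝ)..(x + y : ℝ), 1 / Real.log t| ≤ √(y : ℝ) + 1 := by
  obtain ⟨-, hz2, hz3⟩ := T_Z
  obtain ⟨N1, hN1⟩ := eventually_atTop.1 hz2
  filter_upwards [eventually_ge_atTop N1, eventually_ge_atTop 3] with x h1 h3 y hyx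
  have hx3 : (3 : ℝ) ≤ x := by exact_mod_cast h3
  have hyx' : (y : ℝ) ≤ x := by exact_mod_cast hyx
  set f : ℝ → ℝ := fun t => 1 / Real.log t with hf
  have hanti : AntitoneOn f (Set.Icc (x : ℝ) (x + y)) := by
    intro s hs t ht hst
    simp only [hf]
    have h4 : 0 < Real.log s := Real.log_pos (by linarith [hs.1])
    have h5 : Real.log s ≤ Real.log t := Real.log_le_log (by linarith [hs.1]) hst
    gcongr
  have hi1 := hanti.integral_le_sum
  have hi2 := hanti.sum_le_integral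
  have hlog3 : 1 ≤ Real.log x := by
    rw [Real.le_log_iff_exp_le (by positivity)]
    have := Real.exp_one_lt_d9
    linarith
  -- telescoping
  have htel : ∑ i ∈ range y, f (x + i) - ∑ i ∈ range y, f (x + ((i + 1 : ℕ) : ℝ)) = f x - f (x + y) := by
    have := sum_range_sub' (fun i : ℕ => f (x + i)) y
    rw [← sum_sub_distrib]
    simpa using this
  have hfx : f x ≤ 1 := by
    simp only [hf]
    rw [div_le_one (by linarith)]
    exact hlog3
  have hfxy : 0 ≤ f (x + y) := by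
    simp only [hf]
    have : 0 ≤ Real.log (x + y : ℝ) := Real.log_nonneg (by
      have : (0 : ℝ) ≤ y := by positivity
      linarith)
    positivity
  -- the single values
  have hV : ∀ i ∈ range y, 0 ≤ V (z0 (i + (x + 1))) - f (x + ((i + 1 : ℕ) : ℝ)) ∧
      V (z0 (i + (x + 1))) - f (x + ((i + 1 : ℕ) : ℝ)) ≤ 1 / √(x : ℝ) := by
    intro i _
    have e : (x : ℝ) + ((i + 1 : ℕ) : ℝ) = ((i + (x + 1) : ℕ) : ℝ) := by
      push_cast
      ring
    rw [e]
    set n := i + (x + 1) with hn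
    have hn3 : 3 ≤ n := by omega
    obtain ⟨h4, h5, h6⟩ := hz3 n hn3
    have h7 := hN1 n (by omega)
    have hnx : (x : ℝ) ≤ n := by exact_mod_cast (show x ≤ n by omega)
    have hlogn : 1 ≤ Real.log n := by
      refine hlog3.trans (Real.log_le_log (by linarith) hnx)
    have hsx : √(x : ℝ) ≤ z0 n := (Real.sqrt_le_sqrt hnx).trans h7
    have hsx0 : 0 < √(x : ℝ) := Real.sqrt_pos.2 (by linarith)
    have hz0 : (0 : ℝ) < z0 n := by linarith
    simp only [hf]
    constructor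
    · rw [sub_nonneg, div_le_iff₀ (by linarith)]
      exact h5
    · have h8 : V (z0 n) ≤ (1 + 1 / (z0 n : ℝ)) / Real.log n := by
        rw [le_div_iff₀ (by linarith)]
        exact h6
      have h9 : (1 + 1 / (z0 n : ℝ)) / Real.log n - 1 / Real.log n = 1 / (z0 n : ℝ) / Real.log n := by
        ring
      have h10 : 1 / (z0 n : ℝ) / Real.log n ≤ 1 / (z0 n : ℝ) := div_le_self (by positivity) hlogn
      have h11 : 1 / (z0 n : ℝ) ≤ 1 / √(x : ℝ) := by gcongr
      linarith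
  have hsum : 0 ≤ ∑ m ∈ range y, V (z0 (m + (x + 1))) - ∑ i ∈ range y, f (x + ((i + 1 : ℕ) : ℝ)) ∧
      ∑ m ∈ range y, V (z0 (m + (x + 1))) - ∑ i ∈ range y, f (x + ((i + 1 : ℕ) : ℝ)) ≤ √(y : ℝ) := by
    rw [← sum_sub_distrib]
    constructor
    · exact sum_nonneg fun i hi => (hV i hi).1
    · calc ∑ i ∈ range y, (V (z0 (i + (x + 1))) - f (x + ((i + 1 : ℕ) : ℝ)))
          ≤ ∑ i ∈ range y, 1 / √(x : ℝ) := sum_le_sum fun i hi => (hV i hi).2
        _ = y / √(x : ℝ) := by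
          rw [sum_const, card_range, nsmul_eq_mul]
          ring
        _ ≤ √(y : ℝ) := by
          rw [div_le_iff₀ (Real.sqrt_pos.2 (by linarith))]
          calc (y : ℝ) = √(y : ℝ) * √(y : ℝ) := (Real.mul_self_sqrt (by positivity)).symm
            _ ≤ √(y : ℝ) * √(x : ℝ) := by gcongr
  have e2 : (∫ t in (x : ℝ)..(x + y : ℝ), 1 / Real.log t) = ∫ t in (x : ℝ)..(x + y : ℝ), f t := rfl
  rw [e2, abs_le]
  have h0 : 0 ≤ √(y : ℝ) := Real.sqrt_nonneg _
  constructor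
  · linarith [hsum.1, hsum.2]
  · linarith [hsum.1, hsum.2]

end Pool.Agent.H531.SI
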