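import Pool.Agent.H531.SI.Opt2

set_option autoImplicit false

/-!
# The random sieve in short intervals: final forms
-/

open Finset MeasureTheory ProbabilityTheory Filter Topology

namespace Pool.Agent.H531.SI

open Pool.Agent.T2H31.HV Pool.Agent.T2H32.BF

theorem ncard_eq (s : Set ℕ) (x y : ℕ) [DecidablePred (· ∈ s)] :
    (s ∩ Set.Ioc x y).ncard = ((Ioc x y).filter (fun n => n ∈ s)).card := by
  rw [← Set.ncard_coe_finset]
  congr 1
  ext n
  simp only [Set.mem_inter_iff, Set.mem_Ioc, Finset.coe_filter, mem_Ioc, Set.mem_ofPred_eq]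
  tauto

theorem Icc_Ioc (s : Set ℕ) (x y : ℕ) :
    (s ∩ Set.Ioc x y).ncard ≤ (s ∩ Set.Icc x y).ncard ∧
    (s ∩ Set.Icc x y).ncard ≤ (s ∩ Set.Ioc x y).ncard + 1 := by
  have hf : (s ∩ Set.Icc x y).Finite := (Set.finite_Icc x y).inter_of_right s
  have hf2 : (s ∩ Set.Ioc x y).Finite := (Set.finite_Ioc x y).inter_of_right s
  constructor
  · exact Set.ncard_le_ncard (Set.inter_subset_inter_right s Set.Ioc_subset_Icc_self) hf
  · have h1 : s ∩ Set.Icc x y ⊆ insert x (s ∩ Set.Ioc x y) := by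
      rintro n ⟨h1, h2, h3⟩
      rcases h2.eq_or_lt with h4 | h4
      · exact Or.inl h4.symm
      · exact Or.inr ⟨h1, h4, h3⟩
    exact (Set.ncard_le_ncard h1 (hf2.insert x)).trans (Set.ncard_insert_le _ _)

theorem upper_all {Ω : Type} [MeasurableSpace Ω] {P : Measure Ω} {a : ℕ → Ω → ℕ} (h : Model P a) :
    ∀ᵐ ω ∂P, ∀ θ η : ℝ, 0 < θ → 0 < η → ∀ᶠ x : ℕ in atTop, ∀ y : ℕ, (x : ℝ) ^ θ ≤ y → y ≤ x →
      |((R z0 (fun q => a q ω) ∩ Set.Ioc x (x + y)).ncard : ℝ) -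
        ∫ t in (x : ℝ)..(x + y : ℝ), 1 / Real.log t| ≤ (y : ℝ) ^ (1 / 2 + η) := by
  classical
  have hk : ∀ k : ℕ, ∀ᵐ ω ∂P, ∀ᶠ x : ℕ in atTop, ∀ y : ℕ, (x : ℝ) ^ (1 / ((k : ℝ) + 1)) ≤ y → y ≤ x →
      |CF z0 (x + y) x y (fun q => a q ω) - EC z0 (x + y) x y| ≤ (y : ℝ) ^ (1 / 2 + 1 / ((k : ℝ) + 1)) :=
    fun k => ae_fluct h z0_mono _ _ (by positivity) (by positivity)
  filter_upwards [ae_all_iff.2 hk] with ω hω θ η hθ hη
  obtain ⟨k, hk1⟩ := exists_nat_one_div_lt (show 0 < min θ (η / 2) by positivity)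
  have hkθ : 1 / ((k : ℝ) + 1) ≤ θ := (hk1.trans_le (min_le_left _ _)).le
  have hkη : 1 / ((k : ℝ) + 1) ≤ η / 2 := (hk1.trans_le (min_le_right _ _)).le
  have hlim : ∀ᶠ x : ℕ in atTop, (3 : ℝ) ≤ ((x : ℝ) ^ θ) ^ (η / 2) := by
    have h1 : Tendsto (fun x : ℕ => ((x : ℝ) ^ θ) ^ (η / 2)) atTop atTop :=
      (tendsto_rpow_atTop (by positivity)).comp ((tendsto_rpow_atTop hθ).comp tendsto_natCast_atTop_atTop)
    exact h1.eventually_ge_atTop 3
  filter_upwards [hω k, EC_int, hlim, eventually_ge_atTop 3] with x h1 h2 h3 h4 y hy hyx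
  have hx3 : (3 : ℝ) ≤ x := by exact_mod_cast h4
  have hxθ1 : 1 ≤ (x : ℝ) ^ θ := Real.one_le_rpow (by linarith) hθ.le
  have hy1 : (1 : ℝ) ≤ y := hxθ1.trans hy
  have hy' : (x : ℝ) ^ (1 / ((k : ℝ) + 1)) ≤ y :=
    (Real.rpow_le_rpow_of_exponent_le (by linarith) hkθ).trans hy
  have e1 := h1 y hy' hyx
  have e2 := h2 y hyx
  rw [ncard_eq, ← CF_eq T_Z.1 (x + y) x y le_rfl (by omega), ]
  rw [EC_eq T_Z.1 (x + y) x y le_rfl] at e1
  have hs : √(y : ℝ) ≤ (y : ℝ) ^ (1 / 2 + 1 / ((k : ℝ) + 1)) := by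
    rw [Real.sqrt_eq_rpow]
    apply Real.rpow_le_rpow_of_exponent_le hy1
    have : 0 ≤ 1 / ((k : ℝ) + 1) := by positivity
    linarith
  have hone : (1 : ℝ) ≤ (y : ℝ) ^ (1 / 2 + 1 / ((k : ℝ) + 1)) :=
    Real.one_le_rpow hy1 (by positivity)
  have hfin : 3 * (y : ℝ) ^ (1 / 2 + 1 / ((k : ℝ) + 1)) ≤ (y : ℝ) ^ (1 / 2 + η) := by
    calc 3 * (y : ℝ) ^ (1 / 2 + 1 / ((k : ℝ) + 1)) ≤ (y : ℝ) ^ (η / 2) * (y : ℝ) ^ (1 / 2 + η / 2) := by
          apply mul_le_mul
          · exact h3.trans (Real.rpow_le_rpow (by positivity) hy (by positivity))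
          · exact Real.rpow_le_rpow_of_exponent_le hy1 (by linarith)
          · positivity
          · positivity
      _ = (y : ℝ) ^ (1 / 2 + η) := by
        rw [← Real.rpow_add (by linarith)]
        congr 1
        ring
  rw [abs_le] at e1 e2 ⊢
  constructor
  · linarith [e1.1, e2.1]
  · linarith [e1.2, e2.2]

/-- the integral over an interval of length `n` near `n ^ 2` -/
theorem int_near (n x : ℕ) (hn : 3 ≤ n) (hx1 : n ^ 2 - n ≤ x) (hx2 : x + n ≤ n ^ 2 + n) :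
    |(∫ t in (x : ℝ)..(x + n : ℝ), 1 / Real.log t) - n / (2 * Real.log n)| ≤ 2 := by
  have hn' : (3 : ℝ) ≤ n := by exact_mod_cast hn
  have hx1' : (n : ℝ) ^ 2 - n ≤ x := by
    have h1 : n ^ 2 ≤ x + n := by omega
    have : (n : ℝ) ^ 2 ≤ x + n := by exact_mod_cast h1
    linarith
  have hx2' : (x : ℝ) ≤ (n : ℝ) ^ 2 := by
    have : x ≤ n ^ 2 := by omega
    exact_mod_cast this
  set l := Real.log ((n : ℝ) ^ 2 - n) with hl
  set u := Real.log ((n : ℝ) ^ 2 + n) with hu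
  have hlu : Real.log ((n : ℝ) ^ 2) = 2 * Real.log n := by
    rw [Real.log_pow]
    norm_num
  have hpos : 0 < (n : ℝ) ^ 2 - n := by nlinarith
  have hl1 : 1 ≤ l := by
    rw [hl, Real.le_log_iff_exp_le hpos]
    have := Real.exp_one_lt_d9
    nlinarith
  have hlm : l ≤ 2 * Real.log n := by
    rw [← hlu]
    exact Real.log_le_log hpos (by linarith)
  have hmu : 2 * Real.log n ≤ u := by
    rw [← hlu]
    exact Real.log_le_log (by positivity) (by linarith)
  have hd1 : 2 * Real.log n - l ≤ 1 / ((n : ℝ) - 1) := by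
    rw [← hlu, hl, ← Real.log_div (by positivity) hpos.ne']
    have h1 := Real.log_le_sub_one_of_pos (show 0 < (n : ℝ) ^ 2 / ((n : ℝ) ^ 2 - n) by positivity)
    refine h1.trans (le_of_eq ?_)
    have h3 : (n : ℝ) - 1 ≠ 0 := by linarith
    have h2 : (n : ℝ) ^ 2 - n = n * (n - 1) := by ring
    rw [h2]
    field_simp
    ring
  have hd2 : u - 2 * Real.log n ≤ 1 / (n : ℝ) := by
    rw [← hlu, hu, ← Real.log_div (by positivity) (by positivity)]
    have h1 := Real.log_le_sub_one_of_pos (show 0 < ((n : ℝ) ^ 2 + n) / (n : ℝ) ^ 2 by positivity)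
    refine h1.trans (le_of_eq ?_)
    field_simp
    ring
  have hint : ∀ t ∈ Set.Icc (x : ℝ) (x + n), 1 / u ≤ 1 / Real.log t ∧ 1 / Real.log t ≤ 1 / l := by
    intro t ht
    have h1 : l ≤ Real.log t := Real.log_le_log hpos (by linarith [ht.1])
    have h2 : Real.log t ≤ u := Real.log_le_log (by linarith [ht.1]) (by linarith [ht.2])
    constructor
    · exact one_div_le_one_div_of_le (by linarith) h2
    · exact one_div_le_one_div_of_le (by linarith) h1
  have hcont : IntervalIntegrable (fun t : ℝ => 1 / Real.log t) volume (x : ℝ) (x + n) := by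
    apply ContinuousOn.intervalIntegrable
    rw [Set.uIcc_of_le (by linarith)]
    intro t ht
    have ht1 : 1 < t := by
      have := ht.1
      nlinarith
    have h0 : Real.log t ≠ 0 := (Real.log_pos ht1).ne'
    exact (continuousAt_const.div (Real.continuousAt_log (by linarith)) h0).continuousWithinAt
  have hI1 : (∫ t in (x : ℝ)..(x + n : ℝ), 1 / Real.log t) ≤ n * (1 / l) := by
    have h1 := intervalIntegral.integral_mono_on (by linarith) hcont
      (intervalIntegrable_const (c := 1 / l)) fun t ht => (hint t ht).2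
    rw [intervalIntegral.integral_const, smul_eq_mul] at h1
    linarith
  have hI2 : n * (1 / u) ≤ ∫ t in (x : ℝ)..(x + n : ℝ), 1 / Real.log t := by
    have h1 := intervalIntegral.integral_mono_on (by linarith)
      (intervalIntegrable_const (c := 1 / u)) hcont fun t ht => (hint t ht).1
    rw [intervalIntegral.integral_const, smul_eq_mul] at h1
    linarith
  have h2l : 1 ≤ 2 * Real.log n := by linarith
  have hA : n * (1 / l) - n / (2 * Real.log n) ≤ 2 := by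
    have e : n * (1 / l) - n / (2 * Real.log n) = n * (2 * Real.log n - l) / (l * (2 * Real.log n)) := by
      have h0 : l ≠ 0 := by linarith
      have h0' : 2 * Real.log n ≠ 0 := by linarith
      rw [mul_one_div, div_sub_div _ _ h0 h0']
      ring
    rw [e, div_le_iff₀ (by positivity)]
    have h3 : n * (2 * Real.log n - l) ≤ n * (1 / ((n : ℝ) - 1)) := by gcongr
    have h4 : n * (1 / ((n : ℝ) - 1)) ≤ 2 := by
      rw [mul_one_div, div_le_iff₀ (by linarith)]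
      linarith
    nlinarith
  have hB : n / (2 * Real.log n) - n * (1 / u) ≤ 2 := by
    have e : n / (2 * Real.log n) - n * (1 / u) = n * (u - 2 * Real.log n) / (u * (2 * Real.log n)) := by
      have h0 : u ≠ 0 := by linarith
      have h0' : 2 * Real.log n ≠ 0 := by linarith
      rw [mul_one_div, div_sub_div _ _ h0' h0]
      ring
    rw [e, div_le_iff₀ (by nlinarith)]
    have h3 : n * (u - 2 * Real.log n) ≤ n * (1 / (n : ℝ)) := by gcongr
    have h4 : n * (1 / (n : ℝ)) = 1 := by field_simp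
    nlinarith
  rw [abs_le]
  constructor <;> linarith

theorem opp_upper (S : Set ℕ) (h : ∀ θ η : ℝ, 0 < θ → 0 < η → ∀ᶠ x : ℕ in atTop, ∀ y : ℕ,
      (x : ℝ) ^ θ ≤ y → y ≤ x → |((S ∩ Set.Ioc x (x + y)).ncard : ℝ) -
        ∫ t in (x : ℝ)..(x + y : ℝ), 1 / Real.log t| ≤ (y : ℝ) ^ (1 / 2 + η)) (η : ℝ) (hη : 0 < η) :
    ∀ᶠ n : ℕ in atTop,
      |((S ∩ Set.Icc (n ^ 2 - n) (n ^ 2)).ncard : ℝ) - n / (2 * Real.log n)| ≤ (n : ℝ) ^ (1 / 2 + η) ∧
      |((S ∩ Set.Icc (n ^ 2) (n ^ 2 + n)).ncard : ℝ) - n / (2 * Real.log n)| ≤ (n : ℝ) ^ (1 / 2 + η) := by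
  have h1 := h (1 / 3) (η / 2) (by norm_num) (by positivity)
  have hsq : Tendsto (fun n : ℕ => n ^ 2) atTop atTop := tendsto_pow_atTop (by norm_num)
  have hsq2 : Tendsto (fun n : ℕ => n ^ 2 - n) atTop atTop := by
    refine tendsto_atTop_mono' _ ?_ tendsto_id
    filter_upwards [eventually_ge_atTop 2] with n hn
    simp only [id]
    have : 2 * n ≤ n ^ 2 := by nlinarith
    omega
  have hlim : ∀ᶠ n : ℕ in atTop, (4 : ℝ) ≤ (n : ℝ) ^ (η / 2) :=
    ((tendsto_rpow_atTop (by positivity)).comp tendsto_natCast_atTop_atTop).eventually_ge_atTop 4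
  filter_upwards [hsq.eventually h1, hsq2.eventually h1, hlim, eventually_ge_atTop 3] with n h2 h3 h4 h5
  have hn' : (3 : ℝ) ≤ n := by exact_mod_cast h5
  have hnn : n ≤ n ^ 2 - n := by
    have : 2 * n ≤ n ^ 2 := by nlinarith
    omega
  have hpow : ∀ x : ℕ, x ≤ n ^ 2 → (x : ℝ) ^ (1 / 3 : ℝ) ≤ n := by
    intro x hx
    have h6 : (x : ℝ) ≤ (n : ℝ) ^ (3 : ℝ) := by
      have : (x : ℝ) ≤ (n : ℝ) ^ 2 := by exact_mod_cast hx
      have h7 : (n : ℝ) ^ 2 ≤ (n : ℝ) ^ 3 := pow_le_pow_right₀ (by linarith) (by norm_num)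
      calc (x : ℝ) ≤ (n : ℝ) ^ 3 := this.trans h7
        _ = (n : ℝ) ^ (3 : ℝ) := by norm_cast
    calc (x : ℝ) ^ (1 / 3 : ℝ) ≤ ((n : ℝ) ^ (3 : ℝ)) ^ (1 / 3 : ℝ) :=
          Real.rpow_le_rpow (by positivity) h6 (by norm_num)
      _ = n := by
        rw [← Real.rpow_mul (by positivity)]
        norm_num
  have hfin : 4 * (n : ℝ) ^ (1 / 2 + η / 2) ≤ (n : ℝ) ^ (1 / 2 + η) := by
    calc 4 * (n : ℝ) ^ (1 / 2 + η / 2) ≤ (n : ℝ) ^ (η / 2) * (n : ℝ) ^ (1 / 2 + η / 2) := by gcongr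
      _ = (n : ℝ) ^ (1 / 2 + η) := by
        rw [← Real.rpow_add (by linarith)]
        congr 1
        ring
  have hone : (1 : ℝ) ≤ (n : ℝ) ^ (1 / 2 + η / 2) := Real.one_le_rpow (by linarith) (by positivity)
  have key : ∀ x : ℕ, n ^ 2 - n ≤ x → x ≤ n ^ 2 →
      |((S ∩ Set.Ioc x (x + n)).ncard : ℝ) - ∫ t in (x : ℝ)..(x + n : ℝ), 1 / Real.log t| ≤
        (n : ℝ) ^ (1 / 2 + η / 2) →
      |((S ∩ Set.Icc x (x + n)).ncard : ℝ) - n / (2 * Real.log n)| ≤ (n : ℝ) ^ (1 / 2 + η) := by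
    intro x hx1 hx2 h6
    have h7 := int_near n x h5 hx1 (by omega)
    obtain ⟨h8, h9⟩ := Icc_Ioc S x (x + n)
    have h8' : ((S ∩ Set.Ioc x (x + n)).ncard : ℝ) ≤ (S ∩ Set.Icc x (x + n)).ncard := by exact_mod_cast h8
    have h9' : ((S ∩ Set.Icc x (x + n)).ncard : ℝ) ≤ (S ∩ Set.Ioc x (x + n)).ncard + 1 := by exact_mod_cast h9
    rw [abs_le] at h6 h7 ⊢
    constructor
    · linarith [h6.1, h7.1]
    · linarith [h6.2, h7.2]
  constructor
  · have h6 := key (n ^ 2 - n) le_rfl (Nat.sub_le _ _) (h3 n (hpow _ (Nat.sub_le _ _)) hnn)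
    have h7 : n ^ 2 - n + n = n ^ 2 := Nat.sub_add_cancel (by nlinarith)
    rwa [h7] at h6
  · exact key (n ^ 2) (Nat.sub_le _ _) le_rfl (h2 n (hpow _ le_rfl) (by omega))

theorem asymp_of (f : ℕ → ℝ) (h : ∀ η : ℝ, 0 < η → ∀ᶠ n : ℕ in atTop,
    |f n - n / (2 * Real.log n)| ≤ (n : ℝ) ^ (1 / 2 + η)) :
    Tendsto (fun n : ℕ => f n / (n / (2 * Real.log n))) atTop (𝓝 1) := by
  have h1 := h (1 / 4) (by norm_num)
  have h2 : Tendsto (fun n : ℕ => 2 * (Real.log n / (n : ℝ) ^ (1 / 4 : ℝ))) atTop (𝓝 0) := by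
    have h3 := ((isLittleO_log_rpow_atTop (show (0 : ℝ) < 1 / 4 by norm_num)).tendsto_div_nhds_zero).comp
      tendsto_natCast_atTop_atTop
    have h4 := h3.const_mul (2 : ℝ)
    rw [mul_zero] at h4
    exact h4
  have h5 : Tendsto (fun n : ℕ => f n / (n / (2 * Real.log n)) - 1) atTop (𝓝 0) := by
    refine squeeze_zero_norm' ?_ h2
    filter_upwards [h1, eventually_ge_atTop 3] with n h6 h7
    have hn : (3 : ℝ) ≤ n := by exact_mod_cast h7
    have hlog : 0 < Real.log n := Real.log_pos (by linarith)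
    have hM : 0 < n / (2 * Real.log n) := by positivity
    have e : f n / (n / (2 * Real.log n)) - 1 = (f n - n / (2 * Real.log n)) / (n / (2 * Real.log n)) := by
      field_simp
    rw [e, norm_div, Real.norm_eq_abs, Real.norm_eq_abs, abs_of_pos hM, div_le_iff₀ hM]
    refine h6.trans (le_of_eq ?_)
    have e2 : (n : ℝ) = (n : ℝ) ^ (1 / 2 + 1 / 4 : ℝ) * (n : ℝ) ^ (1 / 4 : ℝ) := by
      rw [← Real.rpow_add (by linarith)]
      norm_num
    have h8 : (n : ℝ) ^ (1 / 4 : ℝ) ≠ 0 := (Real.rpow_pos_of_pos (by linarith) _).ne'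
    calc (n : ℝ) ^ (1 / 2 + 1 / 4 : ℝ) = ((n : ℝ) ^ (1 / 2 + 1 / 4 : ℝ) * (n : ℝ) ^ (1 / 4 : ℝ)) /
          (n : ℝ) ^ (1 / 4 : ℝ) := by field_simp
      _ = n / (n : ℝ) ^ (1 / 4 : ℝ) := by rw [← e2]
      _ = 2 * (Real.log n / (n : ℝ) ^ (1 / 4 : ℝ)) * (n / (2 * Real.log n)) := by
        field_simp
  have h6 := h5.add_const 1
  simpa using h6

/-- lower bounds for the deviations, with absolute values -/
theorem lower_abs {Ω : Type} [MeasurableSpace Ω] {P : Measure Ω} {a : ℕ → Ω → ℕ} (h : Model P a)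
    (θ : ℝ) (hθ : 0 < θ) (x y : ℕ → ℕ) (hx : Tendsto x atTop atTop)
    (hy : ∀ i, (x i : ℝ) ^ θ ≤ y i) (hyx : ∀ i, (y i : ℝ) ≤ (x i : ℝ) ^ (13 / 25 : ℝ)) (M : ℕ → ℝ) :
    ∀ᵐ ω ∂P, ∃ᶠ i in atTop, √((y i : ℝ) / Real.log (x i)) / 40 ≤
      |((R z0 (fun q => a q ω) ∩ Set.Ioc (x i) (x i + y i)).ncard : ℝ) - M i| := by
  classical
  filter_upwards [opt h θ hθ x y hx hy hyx M] with ω hω
  refine hω.mono fun i hi => ?_
  rw [ncard_eq, ← Real.sqrt_sq_eq_abs]
  have e : √((y i : ℝ) / Real.log (x i)) / 40 = √((y i : ℝ) / (1600 * Real.log (x i))) := by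
    rw [show (y i : ℝ) / (1600 * Real.log (x i)) = (y i : ℝ) / Real.log (x i) / 40 ^ 2 by
      rw [div_div, mul_comm]
      norm_num]
    rw [Real.sqrt_div' ((y i : ℝ) / Real.log (x i)) (show (0 : ℝ) ≤ 40 ^ 2 by norm_num),
      Real.sqrt_sq (show (0 : ℝ) ≤ 40 by norm_num)]
  rw [e]
  exact Real.sqrt_le_sqrt hi

theorem opp_lower {Ω : Type} [MeasurableSpace Ω] {P : Measure Ω} {a : ℕ → Ω → ℕ} (h : Model P a)
    (x : ℕ → ℕ) (hx1 : ∀ n, n ^ 2 - n ≤ x n) (hx2 : ∀ n, x n ≤ n ^ 2) (M : ℕ → ℝ) :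
    ∀ᵐ ω ∂P, ∃ᶠ n : ℕ in atTop, √((n : ℝ) / Real.log n) / 60 ≤
      |((R z0 (fun q => a q ω) ∩ Set.Icc (x n) (x n + n)).ncard : ℝ) - M n| := by
  have hxt : Tendsto (fun i => x (i + 100)) atTop atTop := by
    refine tendsto_atTop_mono (fun i => ?_) (tendsto_id (α := ℕ))
    simp only [id]
    have h1 := hx1 (i + 100)
    have h2 : (i + 100) * 2 ≤ (i + 100) ^ 2 := by nlinarith
    omega
  have h1 := lower_abs h (1 / 3) (by norm_num) (fun i => x (i + 100)) (fun i => i + 100) hxt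
    (by
      intro i
      have h3 := hx2 (i + 100)
      set n := i + 100 with hn
      have hn' : (100 : ℝ) ≤ n := by exact_mod_cast (show 100 ≤ n by omega)
      have h6 : (x n : ℝ) ≤ (n : ℝ) ^ (3 : ℝ) := by
        have : (x n : ℝ) ≤ (n : ℝ) ^ 2 := by exact_mod_cast h3
        have h7 : (n : ℝ) ^ 2 ≤ (n : ℝ) ^ 3 := pow_le_pow_right₀ (by linarith) (by norm_num)
        calc (x n : ℝ) ≤ (n : ℝ) ^ 3 := this.trans h7
          _ = (n : ℝ) ^ (3 : ℝ) := by norm_cast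
      calc (x n : ℝ) ^ (1 / 3 : ℝ) ≤ ((n : ℝ) ^ (3 : ℝ)) ^ (1 / 3 : ℝ) :=
            Real.rpow_le_rpow (by positivity) h6 (by norm_num)
        _ = n := by
          rw [← Real.rpow_mul (by positivity)]
          norm_num)
    (by
      intro i
      have h3 := hx1 (i + 100)
      set n := i + 100 with hn
      have hn0 : 100 ≤ n := by omega
      have hn' : (100 : ℝ) ≤ n := by exact_mod_cast hn0
      -- `x n ≥ n ^ 2 - n ≥ n ^ (25 / 13)`
      have h4 : (n : ℝ) ^ 2 - n ≤ x n := by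
        have h1 : n ^ 2 ≤ x n + n := by omega
        have : (n : ℝ) ^ 2 ≤ x n + n := by exact_mod_cast h1
        linarith
      have h5 : (n : ℝ) ^ (25 / 13 : ℝ) ≤ x n := by
        have h6 : (99 / 100 : ℝ) * n ^ 2 ≤ (n : ℝ) ^ 2 - n := by nlinarith
        have h7 : (n : ℝ) ^ (25 / 13 : ℝ) * (n : ℝ) ^ (1 / 13 : ℝ) = (n : ℝ) ^ 2 := by
          rw [← Real.rpow_add (by linarith)]
          norm_num
        have h8 : (100 / 99 : ℝ) ≤ (n : ℝ) ^ (1 / 13 : ℝ) := by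
          calc (100 / 99 : ℝ) = ((100 / 99 : ℝ) ^ (13 : ℝ)) ^ (1 / 13 : ℝ) := by
                rw [← Real.rpow_mul (by norm_num)]
                norm_num
            _ ≤ (n : ℝ) ^ (1 / 13 : ℝ) := by
                apply Real.rpow_le_rpow (by positivity) _ (by norm_num)
                refine le_trans ?_ hn'
                norm_num
        have h9 : 0 ≤ (n : ℝ) ^ (25 / 13 : ℝ) := by positivity
        have h10 : (n : ℝ) ^ (25 / 13 : ℝ) * (100 / 99) ≤ (n : ℝ) ^ 2 := by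
          rw [← h7]
          gcongr
        linarith
      calc (n : ℝ) = ((n : ℝ) ^ (25 / 13 : ℝ)) ^ (13 / 25 : ℝ) := by
            rw [← Real.rpow_mul (by positivity)]
            norm_num
        _ ≤ (x n : ℝ) ^ (13 / 25 : ℝ) := Real.rpow_le_rpow (by positivity) h5 (by norm_num))
    (fun i => M (i + 100))
  have hlarge : ∀ᶠ n : ℕ in atTop, (1300 : ℝ) ≤ √((n : ℝ) / Real.log n) := by
    have h2 : Tendsto (fun n : ℕ => (n : ℝ) / Real.log n) atTop atTop := by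
      have h3 := Real.isLittleO_log_id_atTop.tendsto_div_nhds_zero.comp tendsto_natCast_atTop_atTop
      have h4 : Tendsto (fun n : ℕ => Real.log n / (n : ℝ)) atTop (𝓝[>] 0) := by
        rw [tendsto_nhdsWithin_iff]
        refine ⟨h3, ?_⟩
        filter_upwards [eventually_ge_atTop 2] with n hn
        have : (2 : ℝ) ≤ n := by exact_mod_cast hn
        have h5 : 0 < Real.log n := Real.log_pos (by linarith)
        exact Set.mem_Ioi.2 (by positivity)
      have h5 := h4.inv_tendsto_nhdsGT_zero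
      refine h5.congr fun n => ?_
      simp
    exact (Real.tendsto_sqrt_atTop.comp h2).eventually_ge_atTop 1300
  filter_upwards [h1] with ω hω
  have h2 : ∃ᶠ n : ℕ in atTop, √((n : ℝ) / Real.log (x n)) / 40 ≤
      |((R z0 (fun q => a q ω) ∩ Set.Ioc (x n) (x n + n)).ncard : ℝ) - M n| := by
    rw [frequently_atTop] at hω ⊢
    intro N
    obtain ⟨i, h3, h4⟩ := hω N
    exact ⟨i + 100, by omega, h4⟩
  refine (h2.and_eventually (hlarge.and (eventually_ge_atTop 3))).mono ?_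
  rintro n ⟨h3, h4, h5⟩
  have hn : (3 : ℝ) ≤ n := by exact_mod_cast h5
  obtain ⟨h8, h9⟩ := Icc_Ioc (R z0 fun q => a q ω) (x n) (x n + n)
  have h8' : ((R z0 (fun q => a q ω) ∩ Set.Ioc (x n) (x n + n)).ncard : ℝ) ≤
    (R z0 (fun q => a q ω) ∩ Set.Icc (x n) (x n + n)).ncard := by exact_mod_cast h8
  have h9' : ((R z0 (fun q => a q ω) ∩ Set.Icc (x n) (x n + n)).ncard : ℝ) ≤
    (R z0 (fun q => a q ω) ∩ Set.Ioc (x n) (x n + n)).ncard + 1 := by exact_mod_cast h9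
  have hlogn : 0 < Real.log n := Real.log_pos (by linarith)
  have hxn2 : (x n : ℝ) ≤ (n : ℝ) ^ 2 := by exact_mod_cast hx2 n
  have hxn1 : (1 : ℝ) < x n := by
    have h10 := hx1 n
    have h11 : 2 * n ≤ n ^ 2 := by nlinarith
    exact_mod_cast (show 1 < x n by omega)
  have hlogx0 : 0 < Real.log (x n) := Real.log_pos hxn1
  have hlogx : Real.log (x n) ≤ 2 * Real.log n := by
    have := Real.log_le_log (by linarith) hxn2
    rw [Real.log_pow] at this
    exact_mod_cast this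
  have h10 : √((n : ℝ) / Real.log n) / (10 / 7) ≤ √((n : ℝ) / Real.log (x n)) := by
    have h11 : √((n : ℝ) / Real.log n / (10 / 7) ^ 2) ≤ √((n : ℝ) / Real.log (x n)) := by
      apply Real.sqrt_le_sqrt
      rw [div_div]
      gcongr
      nlinarith
    rwa [Real.sqrt_div' ((n : ℝ) / Real.log n) (show (0 : ℝ) ≤ (10 / 7) ^ 2 by norm_num),
      Real.sqrt_sq (show (0 : ℝ) ≤ 10 / 7 by norm_num)] at h11
  set q := √((n : ℝ) / Real.log n) with hq
  set s0 : ℝ := ((R z0 (fun q => a q ω) ∩ Set.Ioc (x n) (x n + n)).ncard : ℝ)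
  set s1 : ℝ := ((R z0 (fun q => a q ω) ∩ Set.Icc (x n) (x n + n)).ncard : ℝ)
  have h12 : |s0 - M n| ≤ |s1 - M n| + 1 := by
    have e : s0 - M n = (s1 - M n) - (s1 - s0) := by ring
    rw [e]
    refine (abs_sub _ _).trans ?_
    have : |s1 - s0| ≤ 1 := by
      rw [abs_le]
      constructor <;> linarith
    linarith
  linarith

end Pool.Agent.H531.SI
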