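import Pool.Graph.R_pool_sql_team_seeded_707910d6.T2H31.HV.All

set_option autoImplicit false

/-!
# Counts of the survivors of the random sieve in short intervals: the fluctuations
-/

open Finset MeasureTheory ProbabilityTheory Filter Topology

namespace Pool.Agent.H531.SI

open Pool.Agent.T2H31.HV

/-- `1` if `p` sieves `n` -/
noncomputable def ind (z : ℕ → ℕ) (n p : ℕ) : ℝ := if p ≤ z n then 1 else 0

/-- `1` if `n` survives -/
noncomputable def sw (z : ℕ → ℕ) (N : ℕ) (b : ℕ → ℕ) (n : ℕ) : ℝ :=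
  open Classical in if ∀ p ∈ PN N, p ≤ z n → n % p ≠ b p then 1 else 0

/-- the number of the survivors in `(x, x + y]` -/
noncomputable def CF (z : ℕ → ℕ) (N x y : ℕ) (b : ℕ → ℕ) : ℝ :=
  ∑ m ∈ range y, sw z N b (m + (x + 1))

/-- the expected number -/
noncomputable def EC (z : ℕ → ℕ) (N x y : ℕ) : ℝ :=
  ∑ m ∈ range y, ∏ p ∈ PN N, (1 - ind z (m + (x + 1)) p / p)

/-- the component of the set `s` -/
noncomputable def Gc (z : ℕ → ℕ) (N x y : ℕ) (s : Finset ℕ) (b : ℕ → ℕ) : ℝ :=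
  ∑ m ∈ range y, (∏ p ∈ s, -(ind z (m + (x + 1)) p * uu p (m + (x + 1)) (b p))) *
    ∏ p ∈ PN N \ s, (1 - ind z (m + (x + 1)) p / p)

theorem ind_nonneg (z : ℕ → ℕ) (n p : ℕ) : 0 ≤ ind z n p := by
  unfold ind
  split_ifs <;> norm_num

theorem ind_le_one (z : ℕ → ℕ) (n p : ℕ) : ind z n p ≤ 1 := by
  unfold ind
  split_ifs <;> norm_num

theorem ind_mono {z : ℕ → ℕ} (hz : Monotone z) (p : ℕ) : Monotone fun n => ind z n p := by
  intro n n' hn
  simp only [ind]
  split_ifs with h1 h2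
  · exact le_refl _
  · exact absurd (h1.trans (hz hn)) h2
  · norm_num
  · exact le_refl _

theorem sw_eq (z : ℕ → ℕ) (N : ℕ) (b : ℕ → ℕ) (n : ℕ) :
    sw z N b n = ∏ p ∈ PN N, (-(ind z n p * uu p n (b p)) + (1 - ind z n p / p)) := by
  classical
  have e : sw z N b n = ∏ p ∈ PN N, (if p ≤ z n → n % p ≠ b p then (1 : ℝ) else 0) := by
    rw [prod_boole]
    rfl
  rw [e]
  refine prod_congr rfl fun p _ => ?_
  unfold ind uu
  by_cases h1 : p ≤ z n
  · by_cases h2 : n % p = b p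
    · simp [h1, h2]
    · simp [h1, h2]
  · simp [h1]

theorem CF_sum (z : ℕ → ℕ) (N x y : ℕ) (b : ℕ → ℕ) :
    CF z N x y b = ∑ s ∈ (PN N).powerset, Gc z N x y s b := by
  unfold CF Gc
  rw [sum_comm]
  refine sum_congr rfl fun n _ => ?_
  rw [sw_eq, prod_add]

theorem Gc_empty (z : ℕ → ℕ) (N x y : ℕ) (b : ℕ → ℕ) : Gc z N x y ∅ b = EC z N x y := by
  unfold EC Gc
  simp

theorem Gc_dep (z : ℕ → ℕ) (N x y : ℕ) (s : Finset ℕ) : Dep s (Gc z N x y s) := by
  intro b b' hb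
  unfold Gc
  refine sum_congr rfl fun n _ => ?_
  congr 1
  exact prod_congr rfl fun p hp => by rw [hb p hp]

theorem Gc_zero (z : ℕ → ℕ) (N x y : ℕ) (s : Finset ℕ) (p : ℕ) (hp : p ∈ s) (hp0 : 0 < p)
    (b : ℕ → ℕ) : ∑ r ∈ range p, Gc z N x y s (Function.update b p r) = 0 := by
  unfold Gc
  rw [sum_comm]
  apply sum_eq_zero
  intro m _
  set n := m + (x + 1) with hn
  have e : ∀ r, ∏ q ∈ s, -(ind z n q * uu q n (Function.update b p r q)) =
      uu p n r * (-ind z n p * ∏ q ∈ s.erase p, -(ind z n q * uu q n (b q))) := by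
    intro r
    rw [← mul_prod_erase s _ hp, Function.update_self]
    have : ∏ q ∈ s.erase p, -(ind z n q * uu q n (Function.update b p r q)) =
        ∏ q ∈ s.erase p, -(ind z n q * uu q n (b q)) := by
      refine prod_congr rfl fun q hq => ?_
      rw [Function.update_of_ne (ne_of_mem_erase hq)]
    rw [this]
    ring
  simp only [e]
  have e2 : ∀ r, (uu p n r * (-ind z n p * ∏ q ∈ s.erase p, -(ind z n q * uu q n (b q)))) *
      ∏ p ∈ PN N \ s, (1 - ind z n p / p) = uu p n r * ((-ind z n p *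
        ∏ q ∈ s.erase p, -(ind z n q * uu q n (b q))) *
      ∏ p ∈ PN N \ s, (1 - ind z n p / p)) := fun r => by ring
  simp only [e2]
  rw [← sum_mul, T2H31.HV.sum_uu hp0, zero_mul]

theorem prodc_nonneg (z : ℕ → ℕ) (N : ℕ) (s : Finset ℕ) (n : ℕ) :
    0 ≤ ∏ p ∈ PN N \ s, (1 - ind z n p / (p : ℝ)) ∧ ∏ p ∈ PN N \ s, (1 - ind z n p / (p : ℝ)) ≤ 1 := by
  have h : ∀ p ∈ PN N \ s, 0 ≤ (1 - ind z n p / (p : ℝ)) ∧ (1 - ind z n p / (p : ℝ)) ≤ 1 := by
    intro p hp
    have hp2 : (1 : ℝ) ≤ p := by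
      exact_mod_cast ((mem_PN N p).1 (mem_sdiff.1 hp).1).2.one_le
    have h1 : ind z n p / (p : ℝ) ≤ 1 := by
      rw [div_le_one (by linarith)]
      exact (ind_le_one z n p).trans hp2
    have h2 : 0 ≤ ind z n p / (p : ℝ) := div_nonneg (ind_nonneg z n p) (by linarith)
    exact ⟨by linarith, by linarith⟩
  exact ⟨prod_nonneg fun p hp => (h p hp).1, prod_le_one (fun p hp => (h p hp).1) fun p hp => (h p hp).2⟩

theorem Gc_sq {z : ℕ → ℕ} (hz : Monotone z) (N x y : ℕ) (s : Finset ℕ) (hs : s ⊆ PN N)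
    (hne : s.Nonempty) : ∑ b ∈ Pt s, Gc z N x y s b ^ 2 ≤ 9 * (y : ℝ) * (3 / 2 : ℝ) ^ s.card := by
  have hBV := T_BV s (fun p hp => ((mem_PN N p).1 (hs hp)).2) hne y 1
    (fun m => ∏ p ∈ s, ind z (m + (x + 1)) p)
    (fun m => ∏ p ∈ PN N \ s, (1 - ind z (m + (x + 1)) p / p)) (fun _ => x + 1)
    (fun m m' hm => prod_le_prod (fun p _ => ind_nonneg z _ p) fun p _ =>
      ind_mono hz p (show m + (x + 1) ≤ m' + (x + 1) by omega))
    (fun m => prod_nonneg fun p _ => ind_nonneg z _ p)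
    (fun m _ => prod_le_one (fun p _ => ind_nonneg z _ p) fun p _ => ind_le_one z _ p)
    (by
      intro m m' hm
      refine prod_le_prod (fun p hp => ?_) fun p hp => ?_
      · have hp2 : (1 : ℝ) ≤ p := by
          exact_mod_cast ((mem_PN N p).1 (mem_sdiff.1 hp).1).2.one_le
        have h1 : ind z (m' + (x + 1)) p / (p : ℝ) ≤ 1 := by
          rw [div_le_one (by linarith)]
          exact (ind_le_one z _ p).trans hp2
        linarith
      · have := ind_mono hz p (show m + (x + 1) ≤ m' + (x + 1) by omega)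
        have h2 : ind z (m + (x + 1)) p / (p : ℝ) ≤ ind z (m' + (x + 1)) p / (p : ℝ) := by
          have h3 : ind z (m + (x + 1)) p ≤ ind z (m' + (x + 1)) p := this
          gcongr
        linarith)
    (fun m => (prodc_nonneg z N s _).1) (fun m => (prodc_nonneg z N s _).2)
  have e : ∀ b, Gc z N x y s b ^ 2 = (∑ m ∈ range y, (∏ p ∈ s, ind z (m + (x + 1)) p) *
      (∏ p ∈ PN N \ s, (1 - ind z (m + (x + 1)) p / (p : ℝ))) *
        ∏ p ∈ s, uu p (m + (x + 1)) (b p)) ^ 2 := by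
    intro b
    unfold Gc
    have : ∀ m, (∏ p ∈ s, -(ind z (m + (x + 1)) p * uu p (m + (x + 1)) (b p))) *
        ∏ p ∈ PN N \ s, (1 - ind z (m + (x + 1)) p / (p : ℝ)) = (-1) ^ s.card *
        ((∏ p ∈ s, ind z (m + (x + 1)) p) *
      (∏ p ∈ PN N \ s, (1 - ind z (m + (x + 1)) p / (p : ℝ))) *
        ∏ p ∈ s, uu p (m + (x + 1)) (b p)) := by
      intro m
      rw [prod_neg, prod_mul_distrib]
      ring
    simp only [this]
    rw [← mul_sum, mul_pow, ← pow_mul, mul_comm s.card 2, pow_mul]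
    norm_num
  simp only [e]
  refine hBV.trans_eq ?_
  ring

theorem tail {Ω : Type} [MeasurableSpace Ω] {P : Measure Ω}
    {a : ℕ → Ω → ℕ} (hM : T2H32.BF.Model P a) {z : ℕ → ℕ} (hz : Monotone z) (N x y k : ℕ) (t : ℝ)
    (ht : 0 < t) :
    P.real {ω | t < |CF z N x y (fun q => a q ω) - EC z N x y|} ≤
      (9 * (y : ℝ)) ^ k * (∏ p ∈ PN N, (1 + (1 + √(3 / 2)) ^ (2 * k) / (p : ℝ))) / t ^ (2 * k) := by
  classical
  have := T2H32.BF.prob hM
  have hPN : ∀ p ∈ PN N, p.Prime := fun p hp => ((mem_PN N p).1 hp).2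
  have hX : ∀ b, CF z N x y b - EC z N x y = ∑ s ∈ (PN N).powerset.erase ∅, Gc z N x y s b := by
    intro b
    rw [CF_sum, ← Gc_empty z N x y b, ← add_sum_erase _ _ (empty_mem_powerset (PN N))]
    ring
  set G : (ℕ → ℕ) → ℝ := fun b => (∑ s ∈ (PN N).powerset.erase ∅, Gc z N x y s b) ^ (2 * k) with hG
  have hdep : Dep (PN N) G := by
    intro b b' hb
    simp only [hG]
    congr 1
    refine sum_congr rfl fun s hs => ?_
    have hs' := mem_powerset.1 (mem_of_mem_erase hs)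
    exact Gc_dep z N x y s b b' fun p hp => hb p (hs' hp)
  obtain ⟨hi, hi2⟩ := T_TR Ω P a hM (PN N) G hPN hdep
  have hmom := T_MOM T_FIN (PN N) (Gc z N x y) (9 * (y : ℝ)) (3 / 2) k (fun p hp => (hPN p hp).pos)
    (by positivity) (by norm_num) (fun s _ => Gc_dep z N x y s)
    (fun s hs p hp b => Gc_zero z N x y s p hp (hPN p (hs hp)).pos b)
    (fun s hs hne => Gc_sq hz N x y s hs hne)
  have hmark := mul_meas_ge_le_integral_of_nonneg (μ := P) (f := fun ω => G fun q => a q ω)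
    (Eventually.of_forall fun ω => by
      simp only [hG, pow_mul]
      positivity) hi (t ^ (2 * k))
  rw [hi2] at hmark
  have hsub : {ω | t < |CF z N x y (fun q => a q ω) - EC z N x y|} ⊆
      {ω | t ^ (2 * k) ≤ G fun q => a q ω} := by
    intro ω hω
    simp only [Set.mem_ofPred_eq] at hω ⊢
    rw [hX] at hω
    simp only [hG]
    exact (pow_le_pow_left₀ ht.le hω.le _).trans_eq (Even.pow_abs (even_two_mul k) _)
  rw [le_div_iff₀ (by positivity), mul_comm]
  calc t ^ (2 * k) * P.real {ω | t < |CF z N x y (fun q => a q ω) - EC z N x y|}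
      ≤ t ^ (2 * k) * P.real {ω | t ^ (2 * k) ≤ G fun q => a q ω} := by
        apply mul_le_mul_of_nonneg_left (measureReal_mono hsub) (by positivity)
    _ ≤ _ := hmark
    _ ≤ _ := hmom

end Pool.Agent.H531.SI
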