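import Pool.Graph.R_pool_sql_team_seeded_707910d6.T2H31.HV.All

set_option autoImplicit false

/-!
# Sieving a set by primes larger than its diameter: moments of the number of survivors
-/

open Finset MeasureTheory ProbabilityTheory Filter Topology

namespace Pool.Agent.H531.SI

open Pool.Agent.T2H31.HV

/-! ## Mean values -/

theorem Ev_mono (S : Finset ℕ) (F G : (ℕ → ℕ) → ℝ) (h : ∀ b ∈ Pt S, F b ≤ G b) : Ev S F ≤ Ev S G := by
  unfold Ev
  apply mul_le_mul_of_nonneg_left (sum_le_sum h)
  rw [inv_nonneg]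
  exact prod_nonneg fun p _ => by positivity

theorem Ev_nonneg (S : Finset ℕ) (F : (ℕ → ℕ) → ℝ) (h : ∀ b ∈ Pt S, 0 ≤ F b) : 0 ≤ Ev S F := by
  unfold Ev
  apply mul_nonneg _ (sum_nonneg h)
  rw [inv_nonneg]
  exact prod_nonneg fun p _ => by positivity

theorem Ev_add (S : Finset ℕ) (F G : (ℕ → ℕ) → ℝ) : Ev S (fun b => F b + G b) = Ev S F + Ev S G := by
  unfold Ev
  rw [sum_add_distrib, mul_add]

theorem Ev_sub (S : Finset ℕ) (F G : (ℕ → ℕ) → ℝ) : Ev S (fun b => F b - G b) = Ev S F - Ev S G := by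
  unfold Ev
  rw [sum_sub_distrib, mul_sub]

theorem Ev_mul (S : Finset ℕ) (c : ℝ) (F : (ℕ → ℕ) → ℝ) : Ev S (fun b => c * F b) = c * Ev S F := by
  unfold Ev
  rw [← mul_sum]
  ring

theorem Ev_insert (S : Finset ℕ) (p : ℕ) (hp : p ∉ S) (F : (ℕ → ℕ) → ℝ) :
    Ev (insert p S) F = Ev S fun b => (1 / (p : ℝ)) * ∑ r ∈ range p, F (Function.update b p r) := by
  unfold Ev
  rw [sum_Pt_insert S p hp, prod_insert hp, ← mul_sum, mul_inv, one_div]
  ring

theorem Ev_empty (F : (ℕ → ℕ) → ℝ) : Ev ∅ F = F fun _ => 0 := by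
  unfold Ev
  rw [Pt_empty]
  simp

/-- Cauchy–Schwarz -/
theorem Ev_cs (S : Finset ℕ) (F G : (ℕ → ℕ) → ℝ) :
    Ev S (fun b => F b * G b) ^ 2 ≤ Ev S (fun b => F b ^ 2) * Ev S (fun b => G b ^ 2) := by
  unfold Ev
  have h := sum_mul_sq_le_sq_mul_sq (Pt S) F G
  have h0 : 0 ≤ (∏ p ∈ S, (p : ℝ))⁻¹ ^ 2 := by positivity
  calc ((∏ p ∈ S, (p : ℝ))⁻¹ * ∑ b ∈ Pt S, F b * G b) ^ 2
      = (∏ p ∈ S, (p : ℝ))⁻¹ ^ 2 * (∑ b ∈ Pt S, F b * G b) ^ 2 := by ring
    _ ≤ (∏ p ∈ S, (p : ℝ))⁻¹ ^ 2 * ((∑ b ∈ Pt S, F b ^ 2) * ∑ b ∈ Pt S, G b ^ 2) := by gcongr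
    _ = _ := by ring

/-! ## The number of survivors -/

open Classical in
/-- the survivors of `T` -/
noncomputable def Sw (T L : Finset ℕ) (b : ℕ → ℕ) : Finset ℕ := T.filter fun t => ∀ p ∈ L, t % p ≠ b p

/-- the elements of `T` are in different classes modulo every `p ∈ L` -/
def Sep (T L : Finset ℕ) : Prop := ∀ p ∈ L, ∀ t ∈ T, ∀ t' ∈ T, t % p = t' % p → t = t'

theorem Sw_empty (T : Finset ℕ) (b : ℕ → ℕ) : Sw T ∅ b = T := by
  classical
  unfold Sw
  simp

theorem sum_update (T L : Finset ℕ) (p : ℕ) (hp : p ∉ L) (hp0 : 0 < p) (hsep : Sep T (insert p L))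
    (b : ℕ → ℕ) (φ : ℕ → ℝ) :
    ∑ r ∈ range p, φ (Sw T (insert p L) (Function.update b p r)).card =
      ((p : ℝ) - (Sw T L b).card) * φ (Sw T L b).card + (Sw T L b).card * φ ((Sw T L b).card - 1) := by
  classical
  set U := Sw T L b with hU
  have hUT : U ⊆ T := by
    rw [hU]
    exact filter_subset _ _
  have hinj : Set.InjOn (fun t => t % p) (U : Set ℕ) := by
    intro t ht t' ht' h
    exact hsep p (mem_insert_self _ _) t (hUT ht) t' (hUT ht') h
  set I := U.image fun t => t % p with hI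
  have hIc : I.card = U.card := card_image_of_injOn hinj
  have hIr : I ⊆ range p := by
    intro r hr
    rw [hI, mem_image] at hr
    obtain ⟨t, _, rfl⟩ := hr
    exact mem_range.2 (Nat.mod_lt _ hp0)
  have hnew : ∀ r, Sw T (insert p L) (Function.update b p r) = U.filter fun t => t % p ≠ r := by
    intro r
    ext t
    rw [hU]
    unfold Sw
    rw [mem_filter, mem_filter, mem_filter]
    constructor
    · rintro ⟨h1, h2⟩
      refine ⟨⟨h1, fun q hq => ?_⟩, ?_⟩
      · have := h2 q (mem_insert_of_mem hq)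
        rwa [Function.update_of_ne (fun h : q = p => hp (h ▸ hq))] at this
      · have := h2 p (mem_insert_self _ _)
        rwa [Function.update_self] at this
    · rintro ⟨⟨h1, h2⟩, h3⟩
      refine ⟨h1, fun q hq => ?_⟩
      rcases mem_insert.1 hq with rfl | hq
      · rwa [Function.update_self]
      · rw [Function.update_of_ne (fun h : q = p => hp (h ▸ hq))]
        exact h2 q hq
  have h1 : ∀ r ∈ I, (Sw T (insert p L) (Function.update b p r)).card = U.card - 1 := by
    intro r hr
    rw [hnew]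
    rw [hI, mem_image] at hr
    obtain ⟨t, ht, rfl⟩ := hr
    have : U.filter (fun t' => t' % p ≠ t % p) = U.erase t := by
      ext t'
      rw [mem_filter, mem_erase]
      constructor
      · rintro ⟨h2, h3⟩
        exact ⟨fun h => h3 (by rw [h]), h2⟩
      · rintro ⟨h2, h3⟩
        exact ⟨h3, fun h => h2 (hinj h3 ht h)⟩
    rw [this, card_erase_of_mem ht]
  have h2 : ∀ r ∈ range p \ I, (Sw T (insert p L) (Function.update b p r)).card = U.card := by
    intro r hr
    rw [hnew]
    rw [Finset.mem_sdiff] at hr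
    rw [filter_true_of_mem]
    intro t ht h3
    exact hr.2 (mem_image.2 ⟨t, ht, h3⟩)
  rw [← sum_sdiff hIr, sum_congr rfl fun r hr => by rw [h2 r hr],
    sum_congr (s₁ := I) rfl fun r hr => by rw [h1 r hr], sum_const, sum_const, card_sdiff_of_subset hIr, card_range,
    nsmul_eq_mul, nsmul_eq_mul, hIc, Nat.cast_sub]
  have := card_le_card hIr
  rwa [card_range, hIc] at this

theorem Ev_step (T L : Finset ℕ) (p : ℕ) (hp : p ∉ L) (hp0 : 0 < p) (hsep : Sep T (insert p L))
    (φ : ℕ → ℝ) :
    Ev (insert p L) (fun b => φ (Sw T (insert p L) b).card) =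
      Ev L fun b => (1 - (Sw T L b).card / (p : ℝ)) * φ (Sw T L b).card +
        (Sw T L b).card / (p : ℝ) * φ ((Sw T L b).card - 1) := by
  rw [Ev_insert L p hp]
  congr 1
  funext b
  rw [sum_update T L p hp hp0 hsep b φ]
  have : (p : ℝ) ≠ 0 := by positivity
  field_simp

theorem Sep_mono {T L L' : Finset ℕ} (h : Sep T L') (hL : L ⊆ L') : Sep T L := fun p hp => h p (hL hp)

theorem card_le_of_Sep {T L : Finset ℕ} (h : Sep T L) {p : ℕ} (hp : p ∈ L) (hp0 : 0 < p) : T.card ≤ p := by
  classical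
  have h1 : (T.image fun t => t % p).card = T.card := card_image_of_injOn fun t ht t' ht' h2 =>
    h p hp t ht t' ht' h2
  have h2 : T.image (fun t => t % p) ⊆ range p := by
    intro r hr
    rw [mem_image] at hr
    obtain ⟨t, _, rfl⟩ := hr
    exact mem_range.2 (Nat.mod_lt _ hp0)
  have := card_le_card h2
  rwa [h1, card_range] at this

theorem Sw_card_le (T L : Finset ℕ) (b : ℕ → ℕ) : (Sw T L b).card ≤ T.card := by
  classical
  unfold Sw
  exact card_filter_le _ _

/-- the first moment -/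
theorem mom1 (T L : Finset ℕ) (hL : ∀ p ∈ L, p.Prime) (hsep : Sep T L) :
    Ev L (fun b => ((Sw T L b).card : ℝ)) = T.card * ∏ p ∈ L, (1 - 1 / (p : ℝ)) := by
  classical
  induction L using Finset.induction_on with
  | empty => simp [Ev_empty, Sw_empty]
  | insert p L hp ih =>
    have hpp := hL p (mem_insert_self _ _)
    have hp0 : (p : ℝ) ≠ 0 := by exact_mod_cast hpp.ne_zero
    rw [Ev_step T L p hp hpp.pos hsep (fun n => (n : ℝ)), prod_insert hp]
    have e : (fun b => (1 - (Sw T L b).card / (p : ℝ)) * ((Sw T L b).card : ℝ) +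
        (Sw T L b).card / (p : ℝ) * (((Sw T L b).card - 1 : ℕ) : ℝ)) =
        fun b => (1 - 1 / (p : ℝ)) * ((Sw T L b).card : ℝ) := by
      funext b
      rcases Nat.eq_zero_or_pos (Sw T L b).card with h | h
      · simp [h]
      · rw [Nat.cast_sub h]
        field_simp
        push_cast
        ring
    rw [e, Ev_mul, ih (fun q hq => hL q (mem_insert_of_mem hq)) (Sep_mono hsep (subset_insert _ _))]
    ring

/-- the second factorial moment -/
theorem mom2 (T L : Finset ℕ) (hL : ∀ p ∈ L, p.Prime) (hsep : Sep T L) :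
    Ev L (fun b => ((Sw T L b).card : ℝ) * (((Sw T L b).card : ℝ) - 1)) =
      (T.card * ((T.card : ℝ) - 1)) * ∏ p ∈ L, (1 - 2 / (p : ℝ)) := by
  classical
  induction L using Finset.induction_on with
  | empty => simp [Ev_empty, Sw_empty]
  | insert p L hp ih =>
    have hpp := hL p (mem_insert_self _ _)
    have hp0 : (p : ℝ) ≠ 0 := by exact_mod_cast hpp.ne_zero
    rw [Ev_step T L p hp hpp.pos hsep (fun n => (n : ℝ) * ((n : ℝ) - 1)), prod_insert hp]
    have e : (fun b => (1 - (Sw T L b).card / (p : ℝ)) * (((Sw T L b).card : ℝ) * (((Sw T L b).card : ℝ) - 1)) +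
        (Sw T L b).card / (p : ℝ) * ((((Sw T L b).card - 1 : ℕ) : ℝ) * ((((Sw T L b).card - 1 : ℕ) : ℝ) - 1))) =
        fun b => (1 - 2 / (p : ℝ)) * (((Sw T L b).card : ℝ) * (((Sw T L b).card : ℝ) - 1)) := by
      funext b
      rcases Nat.eq_zero_or_pos (Sw T L b).card with h | h
      · simp [h]
      · rw [Nat.cast_sub h]
        field_simp
        push_cast
        ring
    rw [e, Ev_mul, ih (fun q hq => hL q (mem_insert_of_mem hq)) (Sep_mono hsep (subset_insert _ _))]
    ring

theorem exp_quad (l : ℝ) (h : |l| ≤ 1) : Real.exp l ≤ 1 + l + l ^ 2 := by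
  have h1 := Real.abs_exp_sub_one_sub_id_le h
  have := (abs_le.1 h1).2
  linarith

/-- **The exponential moments of the number of survivors.** -/
theorem expmom (T L : Finset ℕ) (hL : ∀ p ∈ L, p.Prime) (hsep : Sep T L) (l : ℝ) (hl : |l| ≤ 1) :
    Ev L (fun b => Real.exp (l * (Sw T L b).card)) ≤
      Real.exp (T.card * (l * ∏ p ∈ L, (1 - 1 / (p : ℝ)) + l ^ 2 * ∑ p ∈ L, 1 / (p : ℝ))) := by
  classical
  induction L using Finset.induction_on generalizing l with
  | empty => simp [Ev_empty, Sw_empty, mul_comm]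
  | insert p L hp ih =>
    have hpp := hL p (mem_insert_self _ _)
    have hp2 : (2 : ℝ) ≤ p := by exact_mod_cast hpp.two_le
    have hp0 : (0 : ℝ) < p := by linarith
    have hLsep := Sep_mono hsep (subset_insert p L)
    set l1 := l - (1 - Real.exp (-l)) / p with hl1
    have hq := exp_quad (-l) (by rwa [abs_neg])
    have hq2 : 1 - l ≤ Real.exp (-l) := by
      have := Real.add_one_le_exp (-l)
      linarith
    have hab := abs_le.1 hl
    have hl2 : l ^ 2 ≤ 1 := by nlinarith
    have hl1' : |l1| ≤ |l| := by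
      rw [hl1]
      -- `(1 - exp (-l)) / p` is between `0` and `l`
      have h1 : |1 - Real.exp (-l)| ≤ 2 * |l| := by
        rw [abs_le]
        have h3 : l ≤ |l| := le_abs_self l
        have h4 : -l ≤ |l| := neg_le_abs l
        have h5 : l ^ 2 ≤ |l| := by
          rw [← sq_abs]
          nlinarith [abs_nonneg l]
        constructor
        · nlinarith
        · nlinarith
      rcases le_total 0 l with h | h
      · have h2 : 0 ≤ 1 - Real.exp (-l) := by
          have : Real.exp (-l) ≤ 1 := Real.exp_le_one_iff.2 (by linarith)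
          linarith
        have h3 : (1 - Real.exp (-l)) / p ≤ l := by
          rw [div_le_iff₀ hp0]
          nlinarith
        have h4 : 0 ≤ (1 - Real.exp (-l)) / p := by positivity
        rw [abs_of_nonneg (by linarith), abs_of_nonneg h]
        linarith
      · have h2 : 1 - Real.exp (-l) ≤ 0 := by
          have : 1 ≤ Real.exp (-l) := Real.one_le_exp (by linarith)
          linarith
        have h3 : l ≤ (1 - Real.exp (-l)) / p := by
          rw [le_div_iff₀ hp0]
          rw [abs_of_nonpos h2, abs_of_nonpos h] at h1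
          nlinarith
        have h4 : (1 - Real.exp (-l)) / p ≤ 0 := div_nonpos_of_nonpos_of_nonneg h2 hp0.le
        rw [abs_of_nonpos (by linarith), abs_of_nonpos h]
        linarith
    have hstep : ∀ b, (1 - (Sw T L b).card / (p : ℝ)) * Real.exp (l * (Sw T L b).card) +
        (Sw T L b).card / (p : ℝ) * Real.exp (l * (((Sw T L b).card - 1 : ℕ) : ℝ)) ≤
          Real.exp (l1 * (Sw T L b).card) := by
      intro b
      set s : ℕ := (Sw T L b).card with hs
      have e : (s : ℝ) / p * Real.exp (l * ((s - 1 : ℕ) : ℝ)) =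
          s / p * (Real.exp (l * s) * Real.exp (-l)) := by
        rcases Nat.eq_zero_or_pos s with h | h
        · simp [h]
        · rw [Nat.cast_sub h, ← Real.exp_add]
          congr 2
          push_cast
          ring
      rw [e]
      have e2 : (1 - s / (p : ℝ)) * Real.exp (l * s) + s / p * (Real.exp (l * s) * Real.exp (-l)) =
          Real.exp (l * s) * (1 + -(s / p * (1 - Real.exp (-l)))) := by ring
      rw [e2]
      have h1 : 1 + -(s / p * (1 - Real.exp (-l))) ≤ Real.exp (-(s / p * (1 - Real.exp (-l)))) := by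
        have := Real.add_one_le_exp (-(s / p * (1 - Real.exp (-l))))
        linarith
      calc Real.exp (l * s) * (1 + -(s / p * (1 - Real.exp (-l))))
          ≤ Real.exp (l * s) * Real.exp (-(s / p * (1 - Real.exp (-l)))) := by gcongr
        _ = Real.exp (l1 * s) := by
          rw [← Real.exp_add]
          congr 1
          rw [hl1]
          ring
    have h2 : Ev (insert p L) (fun b => Real.exp (l * (Sw T (insert p L) b).card)) ≤
        Ev L fun b => Real.exp (l1 * (Sw T L b).card) := by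
      rw [Ev_step T L p hp hpp.pos hsep (fun n => Real.exp (l * n))]
      exact Ev_mono _ _ _ fun b _ => hstep b
    refine h2.trans ((ih (fun q hq => hL q (mem_insert_of_mem hq)) hLsep l1 (hl1'.trans hl)).trans ?_)
    apply Real.exp_le_exp.2
    apply mul_le_mul_of_nonneg_left _ (by positivity)
    rw [prod_insert hp, sum_insert hp]
    set ρ := ∏ p ∈ L, (1 - 1 / (p : ℝ)) with hρ
    set H := ∑ p ∈ L, 1 / (p : ℝ) with hH
    have hH0 : 0 ≤ H := sum_nonneg fun q _ => by positivity
    have hρ0 : 0 ≤ ρ ∧ ρ ≤ 1 := by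
      have h3 : ∀ q ∈ L, 0 ≤ 1 - 1 / (q : ℝ) ∧ 1 - 1 / (q : ℝ) ≤ 1 := by
        intro q hq
        have h4 : (2 : ℝ) ≤ q := by exact_mod_cast (hL q (mem_insert_of_mem hq)).two_le
        have h5 : 1 / (q : ℝ) ≤ 1 := by
          rw [div_le_one (by linarith)]
          linarith
        have h6 : 0 ≤ 1 / (q : ℝ) := by positivity
        exact ⟨by linarith, by linarith⟩
      exact ⟨prod_nonneg fun q hq => (h3 q hq).1, prod_le_one (fun q hq => (h3 q hq).1) fun q hq => (h3 q hq).2⟩
    have h3 : l1 ≤ l * (1 - 1 / p) + l ^ 2 * (1 / p) := by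
      rw [hl1]
      have h4 : (l - l ^ 2) / p ≤ (1 - Real.exp (-l)) / p :=
        div_le_div_of_nonneg_right (by linarith) hp0.le
      have e : l * (1 - 1 / (p : ℝ)) + l ^ 2 * (1 / p) = l - (l - l ^ 2) / p := by
        field_simp
        ring
      rw [e]
      linarith
    have h4 : l1 ^ 2 ≤ l ^ 2 := sq_le_sq.2 hl1'
    have h5 : 0 ≤ l ^ 2 * (1 / (p : ℝ)) := by positivity
    calc l1 * ρ + l1 ^ 2 * H ≤ (l * (1 - 1 / p) + l ^ 2 * (1 / p)) * ρ + l ^ 2 * H := by
          gcongr
          exact hρ0.1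
      _ ≤ l * ((1 - 1 / p) * ρ) + l ^ 2 * (1 / p + H) := by nlinarith [hρ0.1, hρ0.2]

end Pool.Agent.H531.SI
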