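import Pool.Agent.H531.SI.Opt

set_option autoImplicit false

/-!
# The fluctuations are not smaller: the almost sure statement
-/

open Finset MeasureTheory ProbabilityTheory Filter Topology

namespace Pool.Agent.H531.SI

open Pool.Agent.T2H31.HV Pool.Agent.T2H32.BF

open Classical in
theorem R_sub_Tb (x y : ℕ) (b : ℕ → ℕ) :
    (Ioc x (x + y)).filter (fun n => n ∈ R z0 b) ⊆ Tb x y b := by
  intro n hn
  rw [mem_filter] at hn
  unfold Tb
  rw [mem_filter]
  exact ⟨hn.1, fun p hp _ hp3 => hn.2.2 p hp3 ((mem_PN _ _).1 hp).2⟩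

theorem Tb_le (w x y : ℕ) (hwy : w ≤ y) (hwz : w ≤ z0 x) (b : ℕ → ℕ) :
    ((Tb x y b).card : ℝ) ≤ CF (fun n => min w n) (x + y) x y b := by
  classical
  have e0 : CF (fun n => min w n) (x + y) x y b = ∑ n ∈ Ioc x (x + y), sw (fun n => min w n) (x + y) b n := by
    unfold CF
    have : Ioc x (x + y) = Ico (x + 1) (x + 1 + y) := by
      ext n
      rw [mem_Ioc, mem_Ico]
      omega
    rw [this, sum_Ico_eq_sum_range, show x + 1 + y - (x + 1) = y by omega]
    refine sum_congr rfl fun m _ => ?_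
    rw [add_comm m]
  rw [e0]
  unfold Tb
  rw [card_filter, Nat.cast_sum]
  refine sum_le_sum fun n hn => ?_
  rw [mem_Ioc] at hn
  unfold sw
  by_cases h : ∀ p ∈ PN (x + y), p ∉ LL y → p ≤ z0 n → n % p ≠ b p
  · rw [if_pos h, if_pos]
    · simp
    · intro p hp hp2
      have h1 : p ≤ w := hp2.trans (min_le_left _ _)
      refine h p hp (fun h2 => ?_) (h1.trans (hwz.trans (z0_mono (by omega))))
      have := LL_gt h2
      omega
  · rw [if_neg h]
    simp only [Nat.cast_zero]
    split_ifs <;> norm_num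

/-- the good event has probability close to one -/
theorem good_prob {Ω : Type} [MeasurableSpace Ω] {P : Measure Ω} {a : ℕ → Ω → ℕ} (h : Model P a)
    (θ : ℝ) (hθ : 0 < θ) : ∃ C : ℝ, 0 < C ∧ ∀ᶠ x : ℕ in atTop, ∀ y : ℕ, (x : ℝ) ^ θ ≤ y → y ≤ x →
      P.real {ω | ¬ ((y : ℝ) / (4 * Real.log x) ≤ (Tb x y fun q => a q ω).card ∧
        ((Tb x y fun q => a q ω).card : ℝ) ≤ y / 8)} ≤ C / (x : ℝ) ^ 3 := by
  classical
  have := prob h
  obtain ⟨k, C, hC, hev⟩ := numeric θ (1 / 4) hθ (by norm_num)
  obtain ⟨w, hw⟩ := (V_zero.eventually_lt_const (show (0 : ℝ) < 1 / 16 by norm_num)).exists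
  obtain ⟨-, hz2, hz3⟩ := T_Z
  have hlim : Tendsto (fun x : ℕ => (x : ℝ) ^ θ) atTop atTop :=
    (tendsto_rpow_atTop hθ).comp tendsto_natCast_atTop_atTop
  have hlog4 : ∀ᶠ x : ℕ in atTop, 4 * Real.log x ≤ ((x : ℝ) ^ θ) ^ (1 / 4 : ℝ) := by
    have h1 := ((isLittleO_log_rpow_atTop (show 0 < θ * (1 / 4) by positivity)).comp_tendsto
      tendsto_natCast_atTop_atTop).bound (show (0 : ℝ) < 1 / 4 by norm_num)
    filter_upwards [h1] with x hx
    simp only [Function.comp, Real.norm_eq_abs] at hx
    have h2 := le_abs_self (Real.log (x : ℝ))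
    rw [abs_of_nonneg (show 0 ≤ (x : ℝ) ^ (θ * (1 / 4)) by positivity), Real.rpow_mul (by positivity)] at hx
    linarith
  refine ⟨2 * C, by positivity, ?_⟩
  filter_upwards [hev, hlim.eventually_ge_atTop (w : ℝ), hlim.eventually_ge_atTop (65536 : ℝ), hlog4,
    eventually_ge_atTop (max w 3), z0_top.eventually_ge_atTop w] with x h1 h2 h3 h4 h5 h6 y hy hyx
  have hx3 : 3 ≤ x := le_trans (le_max_right _ _) h5
  have hxw : w ≤ x := le_trans (le_max_left _ _) h5
  have hx3' : (3 : ℝ) ≤ x := by exact_mod_cast hx3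
  have hyx' : (y : ℝ) ≤ x := by exact_mod_cast hyx
  have hy0 : (0 : ℝ) < y := by linarith
  have hwy : w ≤ y := by exact_mod_cast h2.trans hy
  have hlogx : 1 ≤ Real.log x := by
    rw [Real.le_log_iff_exp_le (by positivity)]
    have := Real.exp_one_lt_d9
    linarith
  have ht : 0 < (y : ℝ) ^ (1 / 2 + 1 / 4 : ℝ) := Real.rpow_pos_of_pos hy0 _
  have hsplit : (y : ℝ) = (y : ℝ) ^ (1 / 2 + 1 / 4 : ℝ) * (y : ℝ) ^ (1 / 4 : ℝ) := by
    rw [← Real.rpow_add hy0]
    norm_num
  have hy14 : 4 * Real.log x ≤ (y : ℝ) ^ (1 / 4 : ℝ) :=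
    h4.trans (Real.rpow_le_rpow (by positivity) hy (by norm_num))
  have hy16 : 16 ≤ (y : ℝ) ^ (1 / 4 : ℝ) := by
    have e : (16 : ℝ) = (65536 : ℝ) ^ (1 / 4 : ℝ) := by
      rw [show (65536 : ℝ) = 16 ^ (4 : ℝ) by norm_num, ← Real.rpow_mul (by norm_num)]
      norm_num
    rw [e]
    exact Real.rpow_le_rpow (by norm_num) (h3.trans hy) (by norm_num)
  set z1 : ℕ → ℕ := fun n => min w n with hz1
  have hz1m : Monotone z1 := fun n n' hn => min_le_min_left _ hn
  have hp1 := (tail h z0_mono (x + y) x y k _ ht).trans (h1 y hy hyx)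
  have hp2 := (tail h hz1m (x + y) x y k _ ht).trans (h1 y hy hyx)
  have hsub : {ω | ¬ ((y : ℝ) / (4 * Real.log x) ≤ (Tb x y fun q => a q ω).card ∧
        ((Tb x y fun q => a q ω).card : ℝ) ≤ y / 8)} ⊆
      {ω | (y : ℝ) ^ (1 / 2 + 1 / 4 : ℝ) < |CF z0 (x + y) x y (fun q => a q ω) - EC z0 (x + y) x y|} ∪
      {ω | (y : ℝ) ^ (1 / 2 + 1 / 4 : ℝ) < |CF z1 (x + y) x y (fun q => a q ω) - EC z1 (x + y) x y|} := by
    intro ω hω
    by_contra hcon
    simp only [Set.mem_union, Set.mem_ofPred_eq, not_or, not_lt] at hcon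
    obtain ⟨hc1, hc2⟩ := hcon
    apply hω
    constructor
    · have e1 := CF_eq (z := z0) T_Z.1 (x + y) x y le_rfl (by omega) fun q => a q ω
      have e2 : (((Ioc x (x + y)).filter (fun n => n ∈ R z0 fun q => a q ω)).card : ℝ) ≤
          (Tb x y fun q => a q ω).card := by
        exact_mod_cast card_le_card (R_sub_Tb x y _)
      have e3 : (y : ℝ) / (2 * Real.log x) ≤ EC z0 (x + y) x y := by
        rw [EC_eq T_Z.1 _ _ _ le_rfl]
        have : ∀ m ∈ range y, 1 / (2 * Real.log x) ≤ V (z0 (m + (x + 1))) := by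
          intro m hm
          rw [mem_range] at hm
          obtain ⟨-, h7, -⟩ := hz3 (m + (x + 1)) (by omega)
          have h8 : Real.log ((m + (x + 1) : ℕ) : ℝ) ≤ 2 * Real.log x := by
            have h9 : ((m + (x + 1) : ℕ) : ℝ) ≤ x ^ 2 := by
              have : ((m + (x + 1) : ℕ) : ℝ) ≤ 2 * x := by exact_mod_cast (show m + (x + 1) ≤ 2 * x by omega)
              nlinarith
            calc Real.log ((m + (x + 1) : ℕ) : ℝ) ≤ Real.log ((x : ℝ) ^ 2) :=
                  Real.log_le_log (by positivity) h9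
              _ = 2 * Real.log x := by rw [Real.log_pow]; norm_num
          have h10 := V_pos (z0 (m + (x + 1)))
          rw [div_le_iff₀ (by positivity)]
          calc (1 : ℝ) ≤ V (z0 (m + (x + 1))) * Real.log ((m + (x + 1) : ℕ) : ℝ) := h7
            _ ≤ V (z0 (m + (x + 1))) * (2 * Real.log x) := by gcongr
        calc (y : ℝ) / (2 * Real.log x) = ∑ m ∈ range y, 1 / (2 * Real.log x) := by
              rw [sum_const, card_range, nsmul_eq_mul]
              ring
          _ ≤ _ := sum_le_sum this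
      have e4 : (y : ℝ) ^ (1 / 2 + 1 / 4 : ℝ) ≤ y / (4 * Real.log x) := by
        rw [le_div_iff₀ (by positivity)]
        calc (y : ℝ) ^ (1 / 2 + 1 / 4 : ℝ) * (4 * Real.log x) ≤
              (y : ℝ) ^ (1 / 2 + 1 / 4 : ℝ) * (y : ℝ) ^ (1 / 4 : ℝ) := by gcongr
          _ = y := hsplit.symm
      have e5 : (y : ℝ) / (2 * Real.log x) = y / (4 * Real.log x) + y / (4 * Real.log x) := by
        field_simp
        norm_num
      have := (abs_le.1 hc1).1
      linarith
    · have e1 := Tb_le w x y hwy h6 fun q => a q ω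
      have e2 : EC z1 (x + y) x y ≤ y / 16 := by
        rw [EC_eq (fun n => min_le_right _ _) _ _ _ le_rfl]
        have : ∀ m ∈ range y, V (z1 (m + (x + 1))) ≤ 1 / 16 := by
          intro m _
          simp only [hz1]
          rw [min_eq_left (by omega)]
          exact hw.le
        calc ∑ m ∈ range y, V (z1 (m + (x + 1))) ≤ ∑ m ∈ range y, (1 / 16 : ℝ) := sum_le_sum this
          _ = y / 16 := by
            rw [sum_const, card_range, nsmul_eq_mul]
            ring
      have e3 : (y : ℝ) ^ (1 / 2 + 1 / 4 : ℝ) ≤ y / 16 := by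
        rw [le_div_iff₀ (by norm_num)]
        calc (y : ℝ) ^ (1 / 2 + 1 / 4 : ℝ) * 16 ≤
              (y : ℝ) ^ (1 / 2 + 1 / 4 : ℝ) * (y : ℝ) ^ (1 / 4 : ℝ) := by gcongr
          _ = y := hsplit.symm
      have := (abs_le.1 hc2).2
      have e4 : CF (fun n => min w n) (x + y) x y (fun q => a q ω) = CF z1 (x + y) x y (fun q => a q ω) := rfl
      linarith
  calc _ ≤ P.real ({ω | (y : ℝ) ^ (1 / 2 + 1 / 4 : ℝ) < |CF z0 (x + y) x y (fun q => a q ω) - EC z0 (x + y) x y|} ∪
      {ω | (y : ℝ) ^ (1 / 2 + 1 / 4 : ℝ) < |CF z1 (x + y) x y (fun q => a q ω) - EC z1 (x + y) x y|}) :=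
        measureReal_mono hsub (measure_ne_top _ _)
    _ ≤ C / (x : ℝ) ^ 3 + C / (x : ℝ) ^ 3 := (measureReal_union_le _ _).trans (add_le_add hp1 hp2)
    _ = 2 * C / (x : ℝ) ^ 3 := by ring

open Classical in
/-- **The fluctuations are not smaller.** -/
theorem opt {Ω : Type} [MeasurableSpace Ω] {P : Measure Ω} {a : ℕ → Ω → ℕ} (h : Model P a)
    (θ : ℝ) (hθ : 0 < θ) (x y : ℕ → ℕ) (hx : Tendsto x atTop atTop)
    (hy : ∀ i, (x i : ℝ) ^ θ ≤ y i) (hyx : ∀ i, (y i : ℝ) ≤ (x i : ℝ) ^ (13 / 25 : ℝ)) (M : ℕ → ℝ) :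
    ∀ᵐ ω ∂P, ∃ᶠ i in atTop, (y i : ℝ) / (1600 * Real.log (x i)) ≤
      ((((Ioc (x i) (x i + y i)).filter (fun n => n ∈ R z0 fun q => a q ω)).card : ℝ) - M i) ^ 2 := by
  have := prob h
  obtain ⟨C, hC, hgood⟩ := good_prob h θ hθ
  have hytop : Tendsto y atTop atTop := by
    have h1 : Tendsto (fun i => (x i : ℝ) ^ θ) atTop atTop :=
      (tendsto_rpow_atTop hθ).comp (tendsto_natCast_atTop_atTop.comp hx)
    exact tendsto_natCast_atTop_iff.1 (tendsto_atTop_mono hy h1)
  refine io_of_cond h (fun i b => (y i : ℝ) / (1600 * Real.log (x i)) ≤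
      ((((Ioc (x i) (x i + y i)).filter (fun n => n ∈ R z0 b)).card : ℝ) - M i) ^ 2)
    (fun i => x i + y i + 1) ?_ (1 / 140000) (by norm_num) ?_
  · intro i b b' hb
    have : (Ioc (x i) (x i + y i)).filter (fun n => n ∈ R z0 b) =
        (Ioc (x i) (x i + y i)).filter (fun n => n ∈ R z0 b') := by
      refine filter_congr fun n hn => ?_
      rw [mem_Ioc] at hn
      unfold R
      simp only [Set.mem_ofPred_eq]
      refine and_congr_right fun _ => forall_congr' fun p => forall_congr' fun hp => forall_congr' fun _ => ?_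
      have := T_Z.1 n
      rw [hb p (by omega)]
    rw [this]
  · intro m A hA ε hε
    have hsmall : ∀ᶠ i in atTop, C / (x i : ℝ) ^ 3 ≤ ε := by
      have h1 : Tendsto (fun n : ℕ => C / (n : ℝ) ^ 3) atTop (𝓝 0) :=
        (tendsto_const_nhds (x := C)).div_atTop ((tendsto_pow_atTop (by norm_num)).comp tendsto_natCast_atTop_atTop)
      filter_upwards [hx.eventually (h1.eventually_lt_const hε)] with i hi using hi.le
    have hlarge : ∀ᶠ i in atTop, 100 * Real.log (x i) ≤ (x i : ℝ) ^ θ := by
      have h1 := ((isLittleO_log_rpow_atTop hθ).comp_tendsto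
        (tendsto_natCast_atTop_atTop.comp hx)).bound (show (0 : ℝ) < 1 / 100 by norm_num)
      filter_upwards [h1] with i hi
      simp only [Function.comp, Real.norm_eq_abs] at hi
      have h2 := le_abs_self (Real.log (x i : ℝ))
      rw [abs_of_nonneg (show 0 ≤ (x i : ℝ) ^ θ by positivity)] at hi
      linarith
    refine Eventually.frequently ?_
    filter_upwards [hx.eventually hgood, hytop.eventually harm_bounds, hx.eventually z0_large,
      hytop.eventually_ge_atTop (max m 1), hx.eventually_ge_atTop 3, hsmall, hlarge]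
      with i h1 h2 h3 h4 h5 h6 h7
    set X := x i with hX
    set Y := y i with hY
    have hX3 : (3 : ℝ) ≤ X := by exact_mod_cast h5
    have hX0 : (0 : ℝ) < X := by linarith
    have hYm : m ≤ Y := le_trans (le_max_left _ _) h4
    have hY1 : 1 ≤ Y := le_trans (le_max_right _ _) h4
    have hY1' : (1 : ℝ) ≤ Y := by exact_mod_cast hY1
    have hlogX : 1 ≤ Real.log X := by
      rw [Real.le_log_iff_exp_le (by positivity)]
      have := Real.exp_one_lt_d9
      linarith
    have hYX : Y ≤ X := by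
      have h8 : (Y : ℝ) ≤ X := by
        calc (Y : ℝ) ≤ (X : ℝ) ^ (13 / 25 : ℝ) := hyx i
          _ ≤ (X : ℝ) ^ (1 : ℝ) := Real.rpow_le_rpow_of_exponent_le (by linarith) (by norm_num)
          _ = X := Real.rpow_one _
      exact_mod_cast h8
    have hfl : ⌊(Y : ℝ) ^ (21 / 20 : ℝ)⌋₊ ≤ z0 X := by
      refine le_trans (Nat.floor_le_floor ?_) h3
      calc (Y : ℝ) ^ (21 / 20 : ℝ) ≤ ((X : ℝ) ^ (13 / 25 : ℝ)) ^ (21 / 20 : ℝ) :=
            Real.rpow_le_rpow (by positivity) (hyx i) (by norm_num)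
        _ = (X : ℝ) ^ (273 / 500 : ℝ) := by
            rw [← Real.rpow_mul hX0.le]
            norm_num
        _ ≤ (X : ℝ) ^ (11 / 20 : ℝ) := Real.rpow_le_rpow_of_exponent_le (by linarith) (by norm_num)
    set G : (ℕ → ℕ) → Prop := fun b => (Y : ℝ) / (4 * Real.log X) ≤ (Tb X Y b).card ∧
        ((Tb X Y b).card : ℝ) ≤ Y / 8 with hG
    set E : (ℕ → ℕ) → Prop := fun b => (Y : ℝ) / (1600 * Real.log X) ≤
      ((((Ioc X (X + Y)).filter (fun n => n ∈ R z0 b)).card : ℝ) - M i) ^ 2 with hE
    have hLsub : ∀ p ∈ LL Y, p < X + Y + 1 := by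
      intro p hp
      have h8 := (LL_le hp).trans (hfl.trans (T_Z.1 X))
      omega
    have hcond := cond_mul h (range (X + Y + 1) \ LL Y) (LL Y)
      (by
        rw [disjoint_left]
        intro p hp
        exact (Finset.mem_sdiff.1 hp).2)
      (fun b => A b ∧ G b) (fun b => ¬ E b)
      (by
        intro b b' hb
        refine and_congr (hA b b' fun j hj => hb j ?_) ?_
        · rw [Finset.mem_sdiff, mem_range]
          refine ⟨by omega, fun h8 => ?_⟩
          have := LL_gt h8
          omega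
        · simp only [hG]
          rw [Tb_congr X Y b b' hb])
      (by
        intro b b' hb
        have hb' : ∀ j < X + Y + 1, b j = b' j := by
          intro j hj
          apply hb
          by_cases hjL : j ∈ LL Y
          · exact mem_union_right _ hjL
          · exact mem_union_left _ (Finset.mem_sdiff.2 ⟨mem_range.2 hj, hjL⟩)
        have : (Ioc X (X + Y)).filter (fun n => n ∈ R z0 b) =
            (Ioc X (X + Y)).filter (fun n => n ∈ R z0 b') := by
          refine filter_congr fun n hn => ?_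
          rw [mem_Ioc] at hn
          unfold R
          simp only [Set.mem_ofPred_eq]
          refine and_congr_right fun _ => forall_congr' fun p => forall_congr' fun hp => forall_congr' fun _ => ?_
          have := T_Z.1 n
          rw [hb' p (by omega)]
        simp only [hE, this])
      (1 - 1 / 140000) (by norm_num)
      (by
        rintro α ⟨-, hGα⟩
        simp only [hG] at hGα
        obtain ⟨hG1, hG2⟩ := hGα
        set T := Tb X Y α with hT
        have hT25 : 25 ≤ T.card := by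
          have h8 : (25 : ℝ) ≤ T.card := by
            refine le_trans ?_ hG1
            rw [le_div_iff₀ (by positivity)]
            have := hy i
            linarith
          exact_mod_cast h8
        have h9 := cond_dev h T Y (Tb_sep X Y α) hY1 h2.1 h2.2 hT25 hG2 (M i)
        refine le_trans (measureReal_mono ?_ (measure_ne_top _ _)) h9
        intro ω hω
        simp only [Set.mem_ofPred_eq, hE] at hω ⊢
        intro h10
        apply hω
        rw [R_eq X Y (by omega) hfl]
        have h11 : Tb X Y (fun i => if i ∈ range (X + Y + 1) \ LL Y then α i else a i ω) = T := by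
          rw [hT]
          apply Tb_congr
          intro p hp
          rw [if_pos hp]
        have h12 : Sw T (LL Y) (fun i => if i ∈ range (X + Y + 1) \ LL Y then α i else a i ω) =
            Sw T (LL Y) (fun q => a q ω) := by
          unfold Sw
          refine filter_congr fun t _ => forall_congr' fun p => forall_congr' fun hp => ?_
          have h13 : p ∉ range (X + Y + 1) \ LL Y := fun h13 => (Finset.mem_sdiff.1 h13).2 hp
          simp only [h13, if_false]
        rw [h11, h12]
        refine le_trans ?_ h10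
        have h13 : (Y : ℝ) / (1600 * Real.log X) = (Y : ℝ) / (4 * Real.log X) / 400 := by
          field_simp
          norm_num
        rw [h13]
        gcongr)
    -- conclusion
    have hg := h1 Y (hy i) hYX
    have e1 : P.real {ω | A (fun j => a j ω)} ≤ P.real {ω | A (fun j => a j ω) ∧ G (fun j => a j ω)} +
        P.real {ω | ¬ G (fun j => a j ω)} := by
      refine le_trans (measureReal_mono ?_ (measure_ne_top _ _)) (measureReal_union_le _ _)
      intro ω hω
      by_cases h8 : G (fun j => a j ω)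
      · exact Or.inl ⟨hω, h8⟩
      · exact Or.inr h8
    have e2 : P.real {ω | A (fun j => a j ω) ∧ G (fun j => a j ω)} ≤
        P.real {ω | A (fun j => a j ω) ∧ E (fun j => a j ω)} +
        P.real {ω | (A (fun j => a j ω) ∧ G (fun j => a j ω)) ∧ ¬ E (fun j => a j ω)} := by
      refine le_trans (measureReal_mono ?_ (measure_ne_top _ _)) (measureReal_union_le _ _)
      intro ω hω
      by_cases h8 : E (fun j => a j ω)
      · exact Or.inl ⟨hω.1, h8⟩
      · exact Or.inr ⟨hω, h8⟩
    have e3 : P.real {ω | (A (fun j => a j ω) ∧ G (fun j => a j ω)) ∧ ¬ E (fun j => a j ω)} ≤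
        (1 - 1 / 140000) * P.real {ω | A (fun j => a j ω) ∧ G (fun j => a j ω)} := hcond
    have e4 : P.real {ω | ¬ G (fun j => a j ω)} ≤ C / (X : ℝ) ^ 3 := hg
    show 1 / 140000 * (P.real {ω | A (fun j => a j ω)} - ε) ≤
      P.real {ω | A (fun j => a j ω) ∧ E (fun j => a j ω)}
    linarith

end Pool.Agent.H531.SI
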